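import Mathlib
import Pool.Agent.L7h19.FD.Stm2
import Pool.Agent.L7h19.IK.Stm

/-!
# Project EA (helper19; MP_157626_nt): ALL families `y² = x (x² + a(t) x + b(t))`, `a, b ∈ ℤ[t]`
arbitrary with `b (a² - 4 b) ≠ 0`: all moments of `2 ^ (rank - |δ(t)|)`, `2 ^ δ(t)` the Tamagawa ratio

`δ = #{p : E(ℚ_p) has a point with x of odd valuation} - #{the same for y² = x (x² - 2 a x + a² - 4 b)}`.

Local classes at an odd prime `p` (`V'` = the classes of the `x` of the points in `ℚ_p* / squares`, `V`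
the same for the dual curve, `V = V'^⊥`): `column` = `V'` contains a class of odd valuation, `row` =
`V` does. No column, no row: `V' = V` = units. Column only: `V'` = everything, `V = 1`. Row only:
`V' = 1`. Both: `V' = ⟨p w⟩`, `V = ⟨-p w⟩`; sign: `w` is not a square.
-/

set_option autoImplicit false

namespace Pool.Agent.L7h19.EA

open Finset Polynomial Pool.Agent.W262.RK Pool.Agent.W307.RT Pool.Agent.L7h19.RP Pool.Agent.L7h19.IS
open Pool.Agent.L7h19.IT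
open Pool.Agent.L7h19.RP.AT (gm)
open Pool.Agent.L7h19.RH (Q0)
open Pool.Agent.L7h19.IK (FR Lab LR)
open Pool.Agent.L7h19.FD (Pat WE avE WSym WP)
open Pool.Agent.L7h19.FT (Sqr)

/-! ## Local statements -/

/-- `x ≠ 0` is the first coordinate of a point of `y² = x (x² + a x + b)` over `ℚ_p` -/
def Pt (p : ℕ) [Fact p.Prime] (a b : ℤ) (x : ℚ_[p]) : Prop :=
  x ≠ 0 ∧ ∃ y : ℚ_[p], y ^ 2 = x * (x ^ 2 + (a : ℚ_[p]) * x + (b : ℚ_[p]))

/-- some point over `ℚ_p` has an `x` of odd valuation -/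
def OddAt (p : ℕ) (a b : ℤ) : Prop := ∃ _ : Fact p.Prime, ∃ x : ℚ_[p], Pt p a b x ∧ Odd x.valuation

/-- the local data of the curve: `c`: column, `r`: row, `s`: sign -/
def L1 (p : ℕ) [Fact p.Prime] (a b : ℤ) (c r s : Bool) : Prop :=
  (OddAt p a b ↔ c = true) ∧
  (∀ x : ℚ_[p], Pt p a b x → Even x.valuation → r = true → IsSquare x) ∧
  (∀ x : ℚ_[p], Pt p a b x → Odd x.valuation → r = true → c = true →
    (IsSquare (x * p) ↔ s = false))

/-- is `-1` a nonsquare modulo `p`? -/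
def nm (p : ℕ) : Bool := decide (p % 4 = 3)

/-- the local data of the curve and of the dual curve -/
def Loc (p : ℕ) [Fact p.Prime] (a b : ℤ) (c r s : Bool) : Prop :=
  L1 p a b c r s ∧ L1 p (-2 * a) (a ^ 2 - 4 * b) r c (xor s (nm p))

/-- is `n` a nonzero square modulo `p`? -/
def sq (p : ℕ) (n : ℤ) : Bool := decide (jacobiSym n p = 1)

/-- the part of `n` prime to `p` -/
def up (p : ℕ) (n : ℤ) : ℤ := n / (p : ℤ) ^ padicValInt p n

/-- **S_N1** (multiplicative; `β = v(b) ≥ 1`). Existence: `β` odd: `x = b p ^ (2 k)`, `k` large (`b x`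
dominates, see `S_TOR`); `β` even, `a` a square: `x = p` (`a x²` dominates). Conversely let `x` have
odd valuation `v`: `v < 0`: `x³` dominates (odd); `0 < v < β`: `a x²` dominates, so `a` is a square;
`v > β`: `b x` dominates, `β + v` even; `v = β` odd. -/
def S_N1 : Prop := ∀ (p : ℕ) [Fact p.Prime] (a b : ℤ) (s : Bool), p ≠ 2 → b ≠ 0 → ¬ (p : ℤ) ∣ a →
  (p : ℤ) ∣ b → L1 p a b (decide (Odd (padicValInt p b)) || sq p a) false s

/-- **S_N2** (multiplicative; `γ = v(c) ≥ 1`, `c = a² - 4 b`). No odd `v`: `v < 0`: `x³` dominates;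
`v > 0`: `b x` dominates, `b` a unit. Even `v` and row (`γ` odd or `-2 a` a square): `v < 0`:
`x³` dominates, `x` is a square; `v > 0`: `x ~ b ~ (a / 2)²`; `v = 0`: `y² = x (w² - c / 4)`,
`w = x + a / 2`: if `2 v(w) < γ` then `x` is a square; otherwise `x ≡ -a / 2`, so `x` is a square if `-2 a`
is; if `γ` is odd: `2 v(w) > γ`, the valuation of `x (w² - c / 4)` is odd: contradiction. -/
def S_N2 : Prop := ∀ (p : ℕ) [Fact p.Prime] (a b : ℤ) (s : Bool), p ≠ 2 → a ^ 2 - 4 * b ≠ 0 →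
  ¬ (p : ℤ) ∣ a → ¬ (p : ℤ) ∣ b → (p : ℤ) ∣ a ^ 2 - 4 * b →
  L1 p a b false (decide (Odd (padicValInt p (a ^ 2 - 4 * b))) || sq p (-2 * a)) s

/-- **S_N3** (good reduction): `v < 0`: `x³` dominates; `v > 0`: `b x` dominates. -/
def S_N3 : Prop := ∀ (p : ℕ) [Fact p.Prime] (a b : ℤ) (s : Bool), p ≠ 2 →
  ¬ (p : ℤ) ∣ b → ¬ (p : ℤ) ∣ a ^ 2 - 4 * b → L1 p a b false false s

/-- **S_N4** (`v(a) = 1`, `β = v(b) ≥ 3`). Column: `x = ` the root `r₁ ≈ -a` of `x² + a x + b`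
(`a² - 4 b = a² (1 - 4 b / a²)` is a square). Row = (`β` odd: `-(a / p) up b` a square; `β` even: `up b`
a square).
`v` even: `v ≤ 0`: `x³` dominates: square. `v ≥ 2`: `v < β - 1`: `a x²` dominates, odd valuation;
`v > β - 1`: `b x` dominates: `β` even and `x ~ b`; `v = β - 1` (`β` odd): `x³` is smaller and `a x + b`
must cancel: `x ~ -b / a ~ -a b`, a square. `v` odd: `v < 0`: `x³`, odd; `v = 1`: `x + a` must cancel: `x ~ -a`;
`3 ≤ v < β - 1`: odd; `v > β - 1`: `β` odd, `x ~ b ~ -a`; `v = β - 1`, `β` even: `x ~ -a b ~ -a`. -/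
def S_N4 : Prop := ∀ (p : ℕ) [Fact p.Prime] (a b : ℤ), p ≠ 2 → b ≠ 0 →
  (p : ℤ) ∣ a → ¬ (p : ℤ) ^ 2 ∣ a → (p : ℤ) ^ 3 ∣ b →
  L1 p a b true (if Odd (padicValInt p b) then sq p (-(a / p) * up p b) else sq p (up p b))
    (!sq p (-(a / p)))

/-- **S_N5** (`v(a) = 1`, `v(b) = 2`, `γ = v(c) ≥ 3`). Column iff (`γ` odd: `2 (a / p) up c` is a square:
then `x = -a / 2`; `γ` even: `up c` is a square: `x` = a root of `x² + a x + b`). Row: true.
`v < 0`: `x³` dominates; `v = 0`: `x³` dominates, square; `v ≥ 2`: `b x` dominates, `v` even, `x ~ b ~ (a / 2)²`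
(as `4 b = a² - c`). `v = 1`: `y² = x (w² - c / 4)`, `w = x + a / 2`, must have even valuation, so
`v(w² - c / 4)` is odd, `w ≡ 0`, `x ~ -2 a`, and `2 v(w) > γ` odd, `x (-c / 4)` a square, or `2 v(w) = γ` and
`up c` a square. -/
def S_N5 : Prop := ∀ (p : ℕ) [Fact p.Prime] (a b : ℤ), p ≠ 2 → a ^ 2 - 4 * b ≠ 0 →
  (p : ℤ) ∣ a → ¬ (p : ℤ) ^ 2 ∣ a → (p : ℤ) ^ 2 ∣ b → (p : ℤ) ^ 3 ∣ a ^ 2 - 4 * b →
  L1 p a b (if Odd (padicValInt p (a ^ 2 - 4 * b)) then sq p (2 * (a / p) * up p (a ^ 2 - 4 * b))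
    else sq p (up p (a ^ 2 - 4 * b))) true (!sq p (-2 * (a / p)))

/-- some root modulo `p` of `u² + A u + B` is not a square -/
def rt (p : ℕ) (A B : ℤ) : Bool :=
  decide (∃ u ∈ range p, (p : ℤ) ∣ (u : ℤ) ^ 2 + A * u + B ∧ jacobiSym (u : ℤ) p = -1)

/-- **S_N6** (`v(a) ≥ 1`, `v(b) = v(c) = 2`). `v < 0`: `x³`; `v = 0`: square; `v ≥ 2`: `b x`, `v` even, `x ~ b`;
`v = 1`: `x = p X`, `X² + (a / p) X + b / p² ≡ 0`, `X` modulo `p` is a root (so `c / p²` is a square; the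
product of the two roots is `b / p²`, a square if row). Existence: a root of `x² + a x + b`. -/
def S_N6 : Prop := ∀ (p : ℕ) [Fact p.Prime] (a b : ℤ), p ≠ 2 →
  (p : ℤ) ∣ a → (p : ℤ) ^ 2 ∣ b → ¬ (p : ℤ) ^ 3 ∣ b → ¬ (p : ℤ) ^ 3 ∣ a ^ 2 - 4 * b →
  L1 p a b (sq p ((a ^ 2 - 4 * b) / p ^ 2)) (sq p (b / p ^ 2)) (rt p (a / p) (b / p ^ 2))

/-- **S_N7** (`v(a) ≥ 1`, `v(b) = 1`): `v ≤ 0`: `x³`; `v ≥ 1`: `b x`, so `v` odd and `x ~ b`. -/
def S_N7 : Prop := ∀ (p : ℕ) [Fact p.Prime] (a b : ℤ), p ≠ 2 →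
  (p : ℤ) ∣ a → (p : ℤ) ∣ b → ¬ (p : ℤ) ^ 2 ∣ b → L1 p a b true true (!sq p (b / p))

/-- **S_N8** (`v(a) ≥ 2`, `v(b) = 3`): `v ≤ 1`: `x³`, so `v` even, `v ≤ 0`, a square; `v ≥ 2`: `b x`, so `v` odd
and `x ~ b`. -/
def S_N8 : Prop := ∀ (p : ℕ) [Fact p.Prime] (a b : ℤ), p ≠ 2 →
  (p : ℤ) ^ 2 ∣ a → (p : ℤ) ^ 3 ∣ b → ¬ (p : ℤ) ^ 4 ∣ b → L1 p a b true true (!sq p (b / p ^ 3))

/-- **S_SCL**: scaling, `x ↦ g² x`. -/
def S_SCL : Prop := ∀ (p : ℕ) [Fact p.Prime] (a b g : ℤ) (c r s : Bool), g ≠ 0 →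
  L1 p a b c r s → L1 p (g ^ 2 * a) (g ^ 4 * b) c r s

/-- **S_TOR**: the class of `(0, 0)`: `x = b p ^ (2 k)` for large `k` (`y² = b² p ^ (2 k) (1 + small)`). -/
def S_TOR : Prop := ∀ (p : ℕ) [Fact p.Prime] (a b : ℤ), p ≠ 2 → b ≠ 0 →
  ∃ k : ℕ, Pt p a b ((b : ℚ_[p]) * (p : ℚ_[p]) ^ (2 * k))

/-! ## The descent -/

/-- the product of the primes of `P` with the mark -/
def pd (P : Finset ℕ) (c : ℕ → Bool) : ℕ := ∏ p ∈ P.filter (fun p => c p = true), p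

/-- **S_DSE** (may assume `S_TOR`; generalizes `S_DES3`, `Pool/Agent/L7h56/IT/Des3.lean`, theorem
`Pool.Agent.L7h56.IT.s_DES3`): the rank bound from the local data at the primes of `P`. For a rational
point `x = d · square`, `d` squarefree, the odd primes of `d` divide `b` or are in ... (the primes `p ∤ 2 b c`
have even valuation); `p ∈ P` divides `d` only if it is a column; at a row `p ∈ P`: `(d / p) = 1` if `p ∤ d`
(`IsSquare` in `ℚ_p`), and `((d / p) / p) = ± 1` (the sign) if `p ∣ d`. Write `d = g d₁` with `d₁` the product of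
the primes of `P` in `d`: for given `g` the `d₁` are in a coset of the group counted by `N3`. -/
def S_DSE : Prop := ∀ (a b : ℤ) (P E : Finset ℕ) (cl rw : ℕ → Bool), b ≠ 0 → a ^ 2 - 4 * b ≠ 0 →
  (∀ p ∈ P, p ≠ 2 ∧ ∃ _ : Fact p.Prime, Loc p a b (cl p) (rw p) (decide (p ∈ E))) →
  2 ^ Module.finrank ℤ (EI a b).toAffine.Point ≤
    (2 ^ (((2 * b * (a ^ 2 - 4 * b)).natAbs.primeFactors.filter (fun p => p ∉ P)).card + 1) *
      N3 (eE E) (pd P cl) (pd P rw)) *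
    (2 ^ (((2 * b * (a ^ 2 - 4 * b)).natAbs.primeFactors.filter (fun p => p ∉ P)).card + 1) *
      N3 (eE' E) (pd P rw) (pd P cl))

open Classical in
/-- the exponent `δ` of the Tamagawa ratio (up to the primes not dividing `b (a² - 4 b)`) -/
noncomputable def dl (a b : ℤ) : ℝ :=
  (((b * (a ^ 2 - 4 * b)).natAbs.primeFactors.filter (fun p => OddAt p a b)).card : ℝ) -
  (((b * (a ^ 2 - 4 * b)).natAbs.primeFactors.filter
    (fun p => OddAt p (-2 * a) (a ^ 2 - 4 * b))).card : ℝ)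

variable {J : Type} [Fintype J] [DecidableEq J]

/-- the product of the primes of `s` whose pattern satisfies the rule -/
def cpr (ρ : J → Pat → Bool) (s : J → ℕ) (E : Fin 3 → Finset ℕ) : ℕ :=
  ∏ j, ∏ p ∈ (s j).primeFactors.filter (fun p => ρ j (fun i => decide (p ∈ E i)) = true), p

/-- **S_RKE**: the bound for values, from `S_DSE` with `P` = the primes of the `S1 z y x j` (adapt
`Pool.Agent.L7h89.IT.rk3_of`, `Pool/Agent/L7h89/IT/Rk3.lean`). The other primes dividing `2 b c` are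
`≤ z`, or `> y` (at most `k D |J|`), or divide some `S2 z y x j`; the `δ` of the whole curve and
`ω(columns) - ω(rows)` differ by at most their number. -/
def S_RKE : Prop := ∀ (J : Type) [Fintype J] [DecidableEq J] (a b : ℤ) (x : J → ℤ)
  (z y X k D : ℕ) (cl rw : J → Pat → Bool) (E : Fin 3 → Finset ℕ), 2 ≤ z → Gd z x → b ≠ 0 →
  a ^ 2 - 4 * b ≠ 0 →
  (∀ p : ℕ, p.Prime → z < p → (p : ℤ) ∣ b * (a ^ 2 - 4 * b) → ∃ j, (p : ℤ) ∣ x j) →
  (∀ j, (x j).natAbs ≤ X ^ D) → 1 ≤ X → 1 ≤ y → X < (y + 1) ^ k →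
  (∀ j (p : ℕ), p.Prime → p ∣ S1 z y x j → ∃ _ : Fact p.Prime,
    Loc p a b (cl j (fun i => decide (p ∈ E i))) (rw j (fun i => decide (p ∈ E i)))
      (decide (p ∈ E 0))) →
  (2 : ℝ) ^ ((Module.finrank ℤ (EI a b).toAffine.Point : ℕ) - |dl a b| : ℝ) ≤
    64 ^ (z + 2) * (64 ^ (D * Fintype.card J)) ^ k * 64 ^ (∑ j, (S2 z y x j).primeFactors.card) *
      G3 (E 0) (cpr cl (S1 z y x) E) (cpr rw (S1 z y x) E)

/-- **S_GFE**: growth (adapt `Pool/Agent/L7h89/IK/Avk.lean`, `Pool/Agent/L7h89/IT/Ava.lean`,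
`Pool/Agent/L7h89/FD/Gfd.lean`): each new prime multiplies `N3`, `N3'` by at most `2` and the
normalization by at most `2`. -/
def S_GFE : Prop := ∀ (J : Type) [Fintype J] [DecidableEq J] (cl rw : J → Pat → Bool) (z y : ℕ)
  (s e : J → ℕ) (E : Fin 3 → Finset ℕ), 2 ≤ z → (fun j => s j * e j) ∈ Tup J z y →
  G3 (E 0) (cpr cl s E) (cpr rw s E) =
    G3 (E 0 ∩ Q0 s) (cpr cl s (fun i => E i ∩ Q0 s)) (cpr rw s (fun i => E i ∩ Q0 s)) ∧
  G3 (E 0) (cpr cl (fun j => s j * e j) E) (cpr rw (fun j => s j * e j) E) ≤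
    64 ^ (∑ j, (e j).primeFactors.card) * G3 (E 0) (cpr cl s E) (cpr rw s E)

/-! ## The expansion -/

/-- a rule depends on the pattern only up to complement -/
def RSym (ρ : J → Pat → Bool) : Prop := ∀ j (π : Pat), ρ j (fun i => !(π i)) = ρ j π

/-- the weights of the labels `(j, (v, x), h)` -/
noncomputable def bE (W : J → Pat → ℕ → ℝ) (cl rw : J → Pat → Bool) (r : ℕ) (i : Lab J r)
    (p : ℕ) : ℝ :=
  ∑ π : Pat, if (i.2.1.1 = 0 ∨ cl i.1 π = true) ∧ (i.2.1.2 = 0 ∨ rw i.1 π = true) then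
    (if rw i.1 π = true then 1 / 2 ^ r else 1) / 2 * W i.1 π p else 0

/-- the condition on the support -/
def QE (r : ℕ) (U : Finset (Lab J r)) : Prop :=
  (∀ i ∈ U, i.2.1.1 ⬝ᵥ i.2.1.2 = 0) ∧ ∀ y : Fin r → ZMod 2, y ≠ 0 → ∃ i ∈ U, y ⬝ᵥ i.2.1.2 ≠ 0

instance (r : ℕ) : DecidablePred (QE (J := J) r) := fun U => by
  unfold QE
  infer_instance

/-- **S_EXE**: the expansion (compare `S_EXP5`, `Pool/Agent/L7h56/IK/Exp5.lean`, and `S_EFD`,
`Pool/Agent/L7h60/FD/Exf.lean`, where the sum over the patterns `E` is also inside). A prime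
`p ∣ s j` gets the label `(j, (v, x), h)`: `v i = 1` if it divides `d i` (it is a column then), `x i = 1` if it
divides `e i` (it is a row then), `h` arbitrary (the weight is split into two halves). The labels with
`v ⬝ᵥ x ≠ 0` have total weight `0`: if the pattern is replaced by its complement, the sign `eE (E 0) p`
changes, and the weight and the rules do not. -/
def S_EXE : Prop := ∀ (J : Type) [Fintype J] [DecidableEq J] (cl rw : J → Pat → Bool)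
  (W : J → Pat → ℕ → ℝ) (θ : ℕ → ℤ) (τ : Bool) (r z y : ℕ), (∀ p, θ p = 1 ∨ θ p = -1) → 2 ≤ z →
  WSym W (fun _ => 3) → RSym cl → RSym rw →
  ∑ s ∈ Tup J z y, avE W (fun E =>
      FR τ (fun p => eE (E 0) p * θ p) r (cpr cl s E) (cpr rw s E)) s =
    ∑ d ∈ (Tup (Lab J r) z y).filter (fun d => QE r (univ.filter (fun i => d i ≠ 1))),
      (∏ i : Lab J r, gm (bE W cl rw r i) (d i)) * Sym (LR τ r) (fun _ => 1) d

/-! ## The weights -/

/-- `1` if `κ` is a square modulo `f`, `0` otherwise -/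
noncomputable def s1 (f κ : ℤ[X]) : ℝ := by
  classical
  exact if Sqr f κ then 1 else 0

/-- a sign -/
def sgb (k : Bool) : ℝ := if k = true then -1 else 1

/-- the mean of the primes at which the symbols of `K1`, `K2` are `(-1) ^ k1`, `(-1) ^ k2` -/
noncomputable def ms (f K1 K2 : ℤ[X]) (k1 k2 : Bool) : ℝ :=
  (1 + sgb k1 * s1 f K1 + sgb k2 * s1 f K2 + sgb k1 * sgb k2 * s1 f (K1 * K2)) / 4

/-- the three polynomials of the pattern -/
noncomputable def kk (K1 K2 : J → ℤ[X]) (j : J) (i : Fin 3) : ℤ[X] :=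
  if i = 0 then 1 else if i = 1 then K1 j else K2 j

/-- **S_WHJ**: the joint mean values (from `S_UP2`, `S_UP02`, `S_SQ`, `sum_rho` as in
`Pool/Agent/L7h19/FT/Wh.lean` and `Pool/Agent/L7h50/FD/Whd.lean`). The patterns with
`π 0 ≠ π 1` iff `k1`, `π 0 ≠ π 2` iff `k2` have together the weight
`(gaw + sgb k1 bw K1 + sgb k2 bw K2 + sgb k1 sgb k2 bw (K1 K2)) / 4`. -/
def S_WHJ : Prop := ∀ (J : Type) [Fintype J] [DecidableEq J] (f K1 K2 : J → ℤ[X]) (c : ℕ),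
  (∀ j, Irreducible (f j)) → (∀ j, 0 < (f j).natDegree) → (∀ j, ¬ f j ∣ K1 j) →
  (∀ j, ¬ f j ∣ K2 j) → ∀ (j : J) (k1 k2 : Bool), 0 ≤ ms (f j) (K1 j) (K2 j) k1 k2 ∧ ∃ z0 : ℕ,
  (ms (f j) (K1 j) (K2 j) k1 k2 = 0 → ∀ p : ℕ, p.Prime → z0 < p → ∀ π : Pat,
    xor (π 0) (π 1) = k1 → xor (π 0) (π 2) = k2 → WP (fun _ : J => 3) f (kk K1 K2) c j π p = 0) ∧
  ∀ z, z0 ≤ z → ∃ C : ℝ, ∀ y : ℕ, 2 ≤ y →
    ∑ p ∈ PS z y, ∑ π ∈ univ.filter (fun π : Pat => xor (π 0) (π 1) = k1 ∧ xor (π 0) (π 2) = k2),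
      WP (fun _ : J => 3) f (kk K1 K2) c j π p ≤
        ms (f j) (K1 j) (K2 j) k1 k2 * Real.log (Real.log y) + C

/-! ## The local data of the values of polynomials -/

/-- the value of a rule (`none`: the symbol decides) -/
def rl (R : Option Bool) (p : ℕ) (K : ℤ) : Bool := R.getD (sq p K)

/-- **S_POL** (may assume `S_N1, …, S_N8, S_SCL`): `f` an irreducible polynomial. Let `f ^ (2 i) ∣ a`,
`f ^ (4 i) ∣ b`, `i` maximal, `a = f ^ (2 i) a'`, `b = f ^ (4 i) b'`; the scaling (`g = f(t) ^ i`) reduces to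
`a', b'`. Then one of the cases `N1, …, N8` holds for the valuations at `f` and hence (for `p > z0`,
`p ∥ f(t)`) at `p`; with `a'' = a' / f ^ v`, `b'' = b' / f ^ v`, `c'' = c' / f ^ v` (cofactors, not divisible by `f`, so not
by `p`) and `φ = f(t) / p`: `N1`: column: `β` odd or `a'` a square, row false (the dual curve is in the case
`N2`). `N4`: column true, row: `β` odd: `-a'' b''`, even: `b''`, sign: `-a'' φ` not a square; the dual curve is
in the case `N5`: its column is this row (`2 (-2 a / p) up (16 b) ~ -(a / p) up b`), its sign `-2 (-2 a)`.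
`N6`: column `c''`, row `b''`, sign: the roots of `u² + (a' / p) u + b' / p²` are `φ w`, `w` a root of
`w² + a'' w + b''` (`a' = f a''`). The dual curve is in the case `N6`; if column and row, the signs of the
curve and its dual differ by `(-1 / p)`: the roots `u₁ ~ u₂` of the first are `P s₁², P s₂²` and
`-2 √b' = …`, `(s₁ ± s₂)² P = -a' / p ± 2 √(b' / p²)`, minus a root of the dual. `N7`, `N8`: everything true, sign
`b'' φ`, dual: `c ≡ -4 b`. `base`: the sign without `φ`. -/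
def S_POL : Prop := ∀ (a b f : ℤ[X]), b * (a ^ 2 - 4 * b) ≠ 0 → Irreducible f → 0 < f.natDegree →
  ∃ (R1 R2 : Option Bool) (K1 K2 : ℤ[X]) (base : ℕ → ℤ → Bool) (z0 : ℕ), ¬ f ∣ K1 ∧ ¬ f ∣ K2 ∧
    (∀ (p : ℕ) (t t' : ℤ), t ≡ t' [ZMOD p] → base p t = base p t') ∧
    ∀ (p : ℕ) [Fact p.Prime] (t : ℤ), z0 < p → (p : ℤ) ∣ f.eval t → ¬ (p : ℤ) ^ 2 ∣ f.eval t →
      (b * (a ^ 2 - 4 * b)).eval t ≠ 0 →
      Loc p (a.eval t) (b.eval t) (rl R1 p (K1.eval t)) (rl R2 p (K2.eval t))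
        (xor (base p t) (!sq p (f.eval t / p)))

end Pool.Agent.L7h19.EA
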