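import Mathlib
import Pool.Agent.L7h19.EA.Stm
import Pool.Agent.L7h19.IK.Comb

/-!
# Project EA: the combinatorial lemma
-/

set_option autoImplicit false
set_option linter.unusedSectionVars false

namespace Pool.Agent.L7h19.EA

open Finset Pool.Agent.L7h19.IS Pool.Agent.L7h19.IK

variable {J : Type} [Fintype J] [DecidableEq J] {r : ℕ} {K : Type} [Fintype K]

/-- the limit weights, for masses `M` of the states `k`, columns `cc`, rows `rr` -/
noncomputable def wM (cc rr : J → K → Bool) (M : J → K → ℝ) (r : ℕ) (i : Lab J r) : ℝ :=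
  ∑ k : K, if (i.2.1.1 = 0 ∨ cc i.1 k = true) ∧ (i.2.1.2 = 0 ∨ rr i.1 k = true) then
    (if rr i.1 k = true then 1 / 2 ^ r else 1) / 2 * M i.1 k else 0

/-- the term for the state `k` -/
noncomputable def iM (cc rr : J → K → Bool) (r : ℕ) (k : K) (i : Lab J r) : ℝ :=
  if (i.2.1.1 = 0 ∨ cc i.1 k = true) ∧ (i.2.1.2 = 0 ∨ rr i.1 k = true) then
    (if rr i.1 k = true then 1 / 2 ^ r else 1) / 2 else 0

lemma wM_eq (cc rr : J → K → Bool) (M : J → K → ℝ) (i : Lab J r) :
    wM cc rr M r i = ∑ k, M i.1 k * iM cc rr r k i := by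
  unfold wM iM
  refine sum_congr rfl fun k _ => ?_
  split_ifs <;> ring

lemma iM_nonneg (cc rr : J → K → Bool) (k : K) (i : Lab J r) : 0 ≤ iM cc rr r k i := by
  unfold iM
  split_ifs <;> positivity

/-- **the combinatorial condition** -/
lemma combM (cc rr : J → K → Bool) (M : J → K → ℝ) (hM0 : ∀ j k, 0 ≤ M j k)
    (hM1 : ∀ j, ∑ k, M j k = 1) (τ : Bool)
    (U S : Finset (Lab J r)) (hUS : Disjoint U S)
    (hU : ∀ i ∈ U, ∀ k ∈ U, LR τ r i k = LR τ r k i) (hQ : QE r (U ∪ S))
    (hpos : ∀ i ∈ U ∪ S, 0 < wM cc rr M r i) :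
    (∑ i ∈ UL (LR τ r) U S, wM cc rr M r i) ≤ Fintype.card J ∧
      (S.Nonempty → (∑ i ∈ UL (LR τ r) U S, wM cc rr M r i) < Fintype.card J) := by
  classical
  obtain ⟨hval, hspan⟩ := hQ
  set W := UL (LR τ r) U S with hW
  have hWm : ∀ e, e ∈ W ↔ e ∈ U ∧ ∀ k ∈ S, LR τ r e k = LR τ r k e := fun e => by
    rw [hW]
    unfold UL
    simp only [mem_filter]
  have hWU : ∀ e ∈ W, e ∈ U := fun e he => ((hWm e).1 he).1
  have hWH : ∀ e ∈ W, ∀ s ∈ U ∪ S, fo r s.2.1 e.2.1 = 0 := by
    intro e he s hs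
    rw [← LR_symm τ]
    rcases mem_union.1 hs with h | h
    · exact hU e (hWU e he) s h
    · exact ((hWm e).1 he).2 s h
  have hWH' : ∀ e ∈ W, e ∈ U ∪ S := fun e he => mem_union_left _ (hWU e he)
  set D : Submodule (ZMod 2) ((Fin r → ZMod 2) × (Fin r → ZMod 2)) :=
    Submodule.span (ZMod 2) {t | ∃ e ∈ W, e.2.1 = t} with hD
  have hWD : ∀ e ∈ W, e.2.1 ∈ D := fun e he => Submodule.subset_span ⟨e, he, rfl⟩
  have hDH : ∀ t ∈ D, ∀ s ∈ U ∪ S, fo r s.2.1 t = 0 := by
    intro t ht s hs
    have h1 : D ≤ LinearMap.ker (fo r s.2.1) := by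
      rw [hD, Submodule.span_le]
      rintro t ⟨e, he, rfl⟩
      exact hWH e he s hs
    exact h1 ht
  have hfs : ∀ s t : (Fin r → ZMod 2) × (Fin r → ZMod 2), fo r s t = fo r t s := by
    intro s t
    rw [fo_apply, fo_apply, dotProduct_comm t.1 s.2, dotProduct_comm t.2 s.1, add_comm]
  have hDD : ∀ t ∈ D, ∀ t' ∈ D, fo r t' t = 0 := by
    intro t ht t' ht'
    have h1 : D ≤ LinearMap.ker (fo r t') := by
      rw [hD, Submodule.span_le]
      rintro t ⟨e, he, rfl⟩
      have h2 := hDH t' ht' e (hWH' e he)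
      rw [hfs] at h2
      exact h2
    exact h1 ht
  have hD0 : ∀ t ∈ D, t.2 = 0 → t = 0 := by
    intro t ht ht2
    have h1 : t.1 = 0 := by
      by_contra hne
      obtain ⟨i, hi, hi0⟩ := hspan t.1 hne
      have h2 := hDH t ht i hi
      rw [fo_apply, ht2, zero_dotProduct, add_zero] at h2
      exact hi0 h2
    exact Prod.ext h1 ht2
  have hinj : ∀ t ∈ D, ∀ t' ∈ D, t.2 = t'.2 → t = t' := by
    intro t ht t' ht' h
    have h1 := hD0 (t - t') (D.sub_mem ht ht') (by rw [Prod.snd_sub, h, sub_self])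
    exact sub_eq_zero.1 h1
  set Df : Finset ((Fin r → ZMod 2) × (Fin r → ZMod 2)) := univ.filter (fun t => t ∈ D) with hDf
  have hDfm : ∀ t, t ∈ Df ↔ t ∈ D := fun t => by rw [hDf]; simp
  have hcV : (univ : Finset (Fin r → ZMod 2)).card = 2 ^ r := by
    rw [card_univ]
    simp [ZMod.card]
  have hDc : Df.card ≤ 2 ^ r := by
    rw [← hcV]
    refine card_le_card_of_injOn (fun t => t.2) (fun _ _ => mem_coe.2 (mem_univ _)) ?_
    intro t ht t' ht' h
    exact hinj t ((hDfm t).1 (mem_coe.1 ht)) t' ((hDfm t').1 (mem_coe.1 ht')) h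
  -- the fibres
  set c : J → Finset (((Fin r → ZMod 2) × (Fin r → ZMod 2)) × Bool) :=
    fun j => univ.filter (fun x => (j, x) ∈ W) with hc
  have hcm : ∀ j x, x ∈ c j ↔ (j, x) ∈ W := fun j x => by
    rw [hc]
    simp
  -- the sum over the fibre of `j` for the state `k`
  set I : J → K → ℝ := fun j k => ∑ x ∈ c j, iM cc rr r k (j, x) with hI
  have hsum : (∑ i ∈ W, wM cc rr M r i) = ∑ j, ∑ k, M j k * I j k := by
    have e1 : (∑ i ∈ W, wM cc rr M r i) =
        ∑ i : Lab J r, if i ∈ W then wM cc rr M r i else 0 := by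
      rw [Finset.sum_ite_mem, univ_inter]
    rw [e1, Fintype.sum_prod_type]
    refine sum_congr rfl fun j _ => ?_
    have e3 : (∑ y, if (j, y) ∈ W then wM cc rr M r (j, y) else 0) =
        ∑ x ∈ c j, wM cc rr M r (j, x) := by
      rw [hc]
      dsimp only
      rw [sum_filter]
      refine sum_congr rfl fun x _ => ?_
      by_cases h : (j, x) ∈ W
      · rw [if_pos h, if_pos h]
      · rw [if_neg h, if_neg h]
    rw [e3]
    have e2 : ∑ x ∈ c j, wM cc rr M r (j, x) = ∑ k, M j k * I j k := by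
      rw [hI]
      dsimp only
      simp only [mul_sum]
      rw [sum_comm]
      exact sum_congr rfl fun x _ => wM_eq _ _ _ _
    exact e2
  have hJ : (Fintype.card J : ℝ) = ∑ _j : J, (1 : ℝ) := by
    rw [sum_const, card_univ, nsmul_eq_mul, mul_one]
  rw [hsum, hJ]
  have h2r : (0 : ℝ) < 2 * 2 ^ r := by positivity
  set TC : Finset (((Fin r → ZMod 2) × (Fin r → ZMod 2)) × Bool) := Df ×ˢ univ with hTC
  set TB : Finset (((Fin r → ZMod 2) × (Fin r → ZMod 2)) × Bool) := {0} ×ˢ univ with hTB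
  have hTBc : TB.card = 2 := by
    rw [hTB, card_product, card_singleton, one_mul, card_univ, Fintype.card_bool]
  have hTCc : TC.card = 2 * Df.card := by
    rw [hTC, card_product, card_univ, Fintype.card_bool, mul_comm]
  have hcC : ∀ j, c j ⊆ TC := by
    intro j x hx
    have h1 := (hcm j x).1 hx
    rw [hTC, mem_product, hDfm]
    exact ⟨hWD _ h1, mem_univ _⟩
  have hDcr : ((Df.card : ℕ) : ℝ) ≤ 2 ^ r := by exact_mod_cast hDc
  -- rows
  have hrow : ∀ j k, rr j k = true → I j k ≤ ((c j).card : ℝ) / (2 * 2 ^ r) := by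
    intro j k hk
    rw [hI]
    dsimp only
    have e1 : ∀ x ∈ c j, iM cc rr r k (j, x) ≤ 1 / (2 * 2 ^ r) := by
      intro x _
      unfold iM
      rw [if_pos hk]
      split_ifs
      · rw [div_div, mul_comm]
      · positivity
    refine (sum_le_sum e1).trans (le_of_eq ?_)
    rw [sum_const, nsmul_eq_mul, mul_one_div]
  -- no rows: only the label with `t = 0`
  have hnr : ∀ j k, rr j k = false → I j k ≤ ((c j ∩ TB).card : ℝ) / 2 := by
    intro j k hk
    rw [hI]
    dsimp only
    have e1 : ∀ x ∈ c j, iM cc rr r k (j, x) ≤ if x ∈ TB then 1 / 2 else 0 := by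
      intro x hx
      unfold iM
      have hx1 := (hcm j x).1 hx
      by_cases h0 : x.1.2 = 0
      · have h3 : x.1 = 0 := hD0 x.1 (hWD _ hx1) h0
        have h4 : x ∈ TB := by
          rw [hTB, mem_product, mem_singleton]
          exact ⟨h3, mem_univ _⟩
        rw [if_pos h4]
        split_ifs with h1 h2
        · rw [hk] at h2
          exact absurd h2 (by decide)
        · exact le_rfl
        · norm_num
      · rw [if_neg (fun h => by
          rcases h.2 with h5 | h5
          · exact h0 h5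
          · rw [hk] at h5
            exact absurd h5 (by decide))]
        split_ifs <;> norm_num
    refine (sum_le_sum e1).trans (le_of_eq ?_)
    rw [← sum_filter, filter_mem_eq_inter, sum_const, nsmul_eq_mul]
    ring
  have hI1 : ∀ j k, I j k ≤ 1 := by
    intro j k
    cases hk : rr j k with
    | true =>
      refine (hrow j k hk).trans ?_
      rw [div_le_one h2r]
      have h1 := card_le_card (hcC j)
      rw [hTCc] at h1
      have : ((c j).card : ℝ) ≤ 2 * ((Df.card : ℕ) : ℝ) := by exact_mod_cast h1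
      linarith
    | false =>
      refine (hnr j k hk).trans ?_
      rw [div_le_one (by norm_num)]
      have h1 := card_le_card (inter_subset_right (s₁ := c j) (s₂ := TB))
      rw [hTBc] at h1
      exact_mod_cast h1
  have hle : ∀ j, ∑ k, M j k * I j k ≤ 1 := by
    intro j
    calc ∑ k, M j k * I j k ≤ ∑ k, M j k * 1 :=
          sum_le_sum fun k _ => mul_le_mul_of_nonneg_left (hI1 j k) (hM0 j k)
      _ = 1 := by simp only [mul_one]; exact hM1 j
  have hstr : ∀ j k, 0 < M j k → I j k < 1 → ∑ k, M j k * I j k < 1 := by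
    intro j k h1 h2
    calc ∑ k, M j k * I j k < ∑ k, M j k * 1 :=
          sum_lt_sum (fun k _ => mul_le_mul_of_nonneg_left (hI1 j k) (hM0 j k))
            ⟨k, mem_univ _, mul_lt_mul_of_pos_left h2 h1⟩
      _ = 1 := by simp only [mul_one]; exact hM1 j
  refine ⟨sum_le_sum fun j _ => hle j, ?_⟩
  rintro ⟨s, hs⟩
  have hsH : s ∈ U ∪ S := mem_union_right _ hs
  have hsU : s ∉ U := fun h => disjoint_left.1 hUS h hs
  have hsc : s.2 ∉ c s.1 := fun h => hsU (hWU _ ((hcm s.1 s.2).1 h))
  -- a state of positive mass for a label of positive weight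
  have hstate : ∀ i ∈ U ∪ S, ∃ k, 0 < M i.1 k ∧ (i.2.1.2 = 0 ∨ rr i.1 k = true) := by
    intro i hi
    have h1 := hpos i hi
    rw [wM_eq] at h1
    by_contra hne
    push Not at hne
    have h2 : ∑ k, M i.1 k * iM cc rr r k i ≤ 0 := by
      refine sum_nonpos fun k _ => ?_
      rcases (hM0 i.1 k).eq_or_lt with h3 | h3
      · rw [← h3, zero_mul]
      · have h4 := hne k h3
        have h5 : iM cc rr r k i = 0 := by
          unfold iM
          rw [if_neg]
          rintro ⟨_, h6 | h6⟩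
          · exact h4.1 h6
          · exact h4.2 h6
        rw [h5, mul_zero]
    linarith
  by_cases hfull : Df.card = 2 ^ r
  · have hsurj : ∀ x : Fin r → ZMod 2, ∃ t ∈ D, t.2 = x := by
      have h1 : Df.image (fun t => t.2) = univ := by
        apply eq_univ_of_card
        rw [card_image_of_injOn, hfull]
        · simp [ZMod.card]
        · intro t ht t' ht' h
          exact hinj t ((hDfm t).1 (mem_coe.1 ht)) t' ((hDfm t').1 (mem_coe.1 ht')) h
      intro x
      have h2 : x ∈ Df.image (fun t => t.2) := by rw [h1]; exact mem_univ _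
      obtain ⟨t, ht, h3⟩ := mem_image.1 h2
      exact ⟨t, (hDfm t).1 ht, h3⟩
    have hsD : s.2.1 ∈ D := by
      obtain ⟨t, ht, ht2⟩ := hsurj s.2.1.2
      have h1 : s.2.1.1 - t.1 = 0 := by
        rw [← dotProduct_eq_zero_iff]
        intro x
        obtain ⟨t', ht', ht2'⟩ := hsurj x
        have h2 := hDH t' ht' s hsH
        have h3 := hDD t' ht' t ht
        rw [fo_apply] at h2 h3
        rw [sub_dotProduct, ← ht2', dotProduct_comm s.2.1.1, dotProduct_comm t.1]
        rw [ht2] at h3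
        have h4 : t'.2 ⬝ᵥ s.2.1.1 - t'.2 ⬝ᵥ t.1 =
          (t'.1 ⬝ᵥ s.2.1.2 + t'.2 ⬝ᵥ s.2.1.1) - (t'.1 ⬝ᵥ s.2.1.2 + t'.2 ⬝ᵥ t.1) := by ring
        rw [h4, h2, h3, sub_zero]
      have h5 : s.2.1 = t := Prod.ext (sub_eq_zero.1 h1) ht2.symm
      rw [h5]
      exact ht
    obtain ⟨k, hk0, hk⟩ := hstate s hsH
    refine sum_lt_sum (fun j _ => hle j) ⟨s.1, mem_univ _, hstr s.1 k hk0 ?_⟩
    cases hr : rr s.1 k with
    | true =>
      refine (hrow s.1 k hr).trans_lt ?_
      rw [div_lt_one h2r]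
      have h5 : (c s.1).card < TC.card := card_lt_card ⟨hcC _, fun h => hsc (h (by
        rw [hTC, mem_product, hDfm]
        exact ⟨hsD, mem_univ _⟩))⟩
      rw [hTCc, hfull] at h5
      exact_mod_cast h5
    | false =>
      refine (hnr s.1 k hr).trans_lt ?_
      rw [div_lt_one (by norm_num)]
      have h0 : s.2.1.2 = 0 := by
        rcases hk with h | h
        · exact h
        · rw [hr] at h
          exact absurd h (by decide)
      have h5 : (c s.1 ∩ TB).card < TB.card := card_lt_card ⟨inter_subset_right, fun h => hsc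
        (mem_of_mem_inter_left (h (by
          rw [hTB, mem_product, mem_singleton]
          exact ⟨hD0 _ hsD h0, mem_univ _⟩)))⟩
      rw [hTBc] at h5
      exact_mod_cast h5
  · have hlt1 : Df.card < 2 ^ r := lt_of_le_of_ne hDc hfull
    have h0D : (0 : (Fin r → ZMod 2) × (Fin r → ZMod 2)) ∈ Df := (hDfm 0).2 D.zero_mem
    have hpos' : 1 ≤ Df.card := card_pos.2 ⟨0, h0D⟩
    have hr : r ≠ 0 := by
      rintro rfl
      rw [pow_zero] at hlt1
      omega
    have hex : ∃ j k, 0 < M j k ∧ rr j k = true := by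
      have hy : (fun _ : Fin r => (1 : ZMod 2)) ≠ 0 := by
        intro h
        have h1 := congrFun h ⟨0, Nat.pos_of_ne_zero hr⟩
        exact one_ne_zero h1
      obtain ⟨i, hi, hi0⟩ := hspan _ hy
      obtain ⟨k, hk0, hk⟩ := hstate i hi
      refine ⟨i.1, k, hk0, ?_⟩
      rcases hk with h | h
      · rw [h, dotProduct_zero] at hi0
        exact absurd rfl hi0
      · exact h
    obtain ⟨j, k, hj0, hj⟩ := hex
    refine sum_lt_sum (fun j _ => hle j) ⟨j, mem_univ _, hstr j k hj0 ?_⟩
    refine (hrow j k hj).trans_lt ?_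
    rw [div_lt_one h2r]
    have h1 := card_le_card (hcC j)
    rw [hTCc] at h1
    have h2 : (c j).card < 2 * 2 ^ r := by omega
    exact_mod_cast h2

end Pool.Agent.L7h19.EA
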