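import Mathlib
import Pool.Agent.L7h19.EA.Comb
import Pool.Agent.L7h19.FD.Maj
import Pool.Agent.L7h19.FD.Abs

/-!
# Project EA: the average of the majorant
-/

set_option autoImplicit false
set_option linter.unusedSectionVars false

namespace Pool.Agent.L7h19.EA

open Finset Polynomial Pool.Agent.W262.RK Pool.Agent.W307.RT Pool.Agent.L7h19.RP Pool.Agent.L7h19.IS
open Pool.Agent.L7h19.IT
open Pool.Agent.L7h19.RP.AT (gm)
open Pool.Agent.L7h19.RH (Q0)
open Pool.Agent.L7h19.IK (FR Lab LR LR_self)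
open Pool.Agent.L7h19.FD (Pat WE avE WSym WP WHyp bC genC S_WHD muD PSm)
open Pool.Agent.L7h19.FT (Sqr)

variable {J : Type} [Fintype J] [DecidableEq J] {z y : ℕ}

lemma UL_sub {ι : Type} [Fintype ι] [DecidableEq ι] {L : ι → ι → Bool} {U S : Finset ι} {i : ι}
    (h : i ∈ UL L U S) : i ∈ U := (mem_filter.1 h).1

/-- the state of a pattern -/
def kp (π : Pat) : Bool × Bool := (xor (π 0) (π 1), xor (π 0) (π 2))

lemma kp_compl (π : Pat) : kp (fun i => !(π i)) = kp π := by
  have h : ∀ a b c : Bool, (xor (!a) (!b), xor (!a) (!c)) = (xor a b, xor a c) := by decide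
  exact h _ _ _

/-- the coefficients -/
noncomputable def cE (cc rr : J → Bool × Bool → Bool) (r : ℕ) (i : Lab J r) (q : Pat)
    (_e : ZMod 2) : ℝ := iM cc rr r (kp q) i

lemma iM_le (cc rr : J → Bool × Bool → Bool) (r : ℕ) (k : Bool × Bool) (i : Lab J r) :
    iM cc rr r k i ≤ 1 / 2 := by
  have h1 : (1 : ℝ) / 2 ^ r ≤ 1 := by
    rw [div_le_one (by positivity)]
    exact one_le_pow₀ (by norm_num)
  unfold iM
  split_ifs <;> linarith

lemma bE_bC (W : J → Pat → ℕ → ℝ) (cc rr : J → Bool × Bool → Bool) (r : ℕ) (i : Lab J r) (p : ℕ) :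
    bE W (fun j π => cc j (kp π)) (fun j π => rr j (kp π)) r i p =
      bC W (fun i : Lab J r => i.1) (cE cc rr r) i p := by
  unfold bE bC cE iM
  refine sum_congr rfl fun π _ => ?_
  by_cases h : (i.2.1.1 = 0 ∨ cc i.1 (kp π) = true) ∧ (i.2.1.2 = 0 ∨ rr i.1 (kp π) = true)
  · rw [if_pos h, if_pos h]
  · rw [if_neg h, if_neg h, zero_mul]

lemma bE_states (W : J → Pat → ℕ → ℝ) (cc rr : J → Bool × Bool → Bool) (r : ℕ) (i : Lab J r)
    (p : ℕ) : bE W (fun j π => cc j (kp π)) (fun j π => rr j (kp π)) r i p =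
      ∑ k : Bool × Bool, iM cc rr r k i * ∑ π ∈ univ.filter (fun π => kp π = k), W i.1 π p := by
  rw [bE_bC]
  unfold bC cE
  rw [← sum_fiberwise_of_maps_to (s := (univ : Finset Pat)) (t := (univ : Finset (Bool × Bool)))
    (g := kp) (fun _ _ => mem_univ _)]
  refine sum_congr rfl fun k _ => ?_
  rw [mul_sum]
  refine sum_congr rfl fun π hπ => ?_
  rw [(mem_filter.1 hπ).2]

/-- the sum of the expansions of `FR` -/
theorem majE (hBW : StBW) (hFr : StFree) (hEx : S_EXE) (hWD : S_WHD) (hWJ : S_WHJ)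
    (f K1 K2 : J → ℤ[X]) (hf : ∀ j, Irreducible (f j)) (hd : ∀ j, 0 < (f j).natDegree)
    (hK1 : ∀ j, ¬ f j ∣ K1 j) (hK2 : ∀ j, ¬ f j ∣ K2 j) (cc rr : J → Bool × Bool → Bool)
    (θ : ℕ → ℤ) (hθ : ∀ p, θ p = 1 ∨ θ p = -1) (τ : Bool) (r c : ℕ) :
    ∃ z0 : ℕ, ∀ z, z0 ≤ z → ∃ C : ℝ, ∀ y, z < y →
      ∑ s ∈ Tup J z y, avE (WP (fun _ => 3) f (kk K1 K2) c)
        (fun E => FR τ (fun p => eE (E 0) p * θ p) r (cpr (fun j π => cc j (kp π)) s E)
          (cpr (fun j π => rr j (kp π)) s E)) s ≤ C * (Real.log y) ^ (Fintype.card J) := by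
  classical
  have hκ : ∀ j i, ¬ f j ∣ kk K1 K2 j i := by
    intro j i
    unfold kk
    split_ifs
    · intro h
      exact (hf j).not_isUnit (isUnit_of_dvd_one h)
    · exact hK1 j
    · exact hK2 j
  set W : J → Pat → ℕ → ℝ := WP (fun _ => 3) f (kk K1 K2) c with hWdef
  have hW := hWD J (fun _ => 3) f (kk K1 K2) c hf hd hκ
  have hWS : WSym W (fun _ => 3) := Pool.Agent.L7h19.FD.WP_sym _ _ _ _
  have hW' := hW
  obtain ⟨G, zb, hW1, hW2, hW3, hW4⟩ := hW'
  set M : J → Bool × Bool → ℝ := fun j k => ms (f j) (K1 j) (K2 j) k.1 k.2 with hM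
  have hJ := fun (j : J) (k : Bool × Bool) => hWJ J f K1 K2 c hf hd hK1 hK2 j k.1 k.2
  have hM0 : ∀ j k, 0 ≤ M j k := fun j k => (hJ j k).1
  have hM1 : ∀ j, ∑ k, M j k = 1 := by
    intro j
    rw [Fintype.sum_prod_type]
    simp only [Fintype.sum_bool, hM]
    unfold ms sgb
    simp
    ring
  choose zj hzj0 hzj1 using fun (j : J) (k : Bool × Bool) => (hJ j k).2
  set w : Lab J r → ℝ := fun i => if 0 < wM cc rr M r i then wM cc rr M r i else 1 / 2 with hw
  have hwM0 : ∀ i, 0 ≤ wM cc rr M r i := fun i => by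
    rw [wM_eq]
    exact sum_nonneg fun k _ => mul_nonneg (hM0 _ _) (iM_nonneg _ _ _ _)
  have hwMle : ∀ i, wM cc rr M r i ≤ 1 / 2 := fun i => by
    rw [wM_eq]
    calc ∑ k, M i.1 k * iM cc rr r k i ≤ ∑ k, M i.1 k * (1 / 2) :=
          sum_le_sum fun k _ => mul_le_mul_of_nonneg_left (iM_le _ _ _ _ _) (hM0 _ _)
      _ = 1 / 2 := by rw [← sum_mul, hM1, one_mul]
  have hfil : ∀ k : Bool × Bool, (univ.filter (fun π : Pat => kp π = k)) =
      univ.filter (fun π : Pat => xor (π 0) (π 1) = k.1 ∧ xor (π 0) (π 2) = k.2) := by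
    intro k
    refine filter_congr fun π _ => ?_
    unfold kp
    exact Prod.ext_iff
  -- labels of weight zero
  set Z : ℕ := zb + c + 2 + ∑ j, ∑ k, zj j k with hZ
  have hzjZ : ∀ j k, zj j k ≤ Z := fun j k => by
    have e1 : zj j k ≤ ∑ k, zj j k := le_sum_nat (fun k => zj j k) k
    have e2 : ∑ k, zj j k ≤ ∑ j, ∑ k, zj j k := le_sum_nat (fun j => ∑ k, zj j k) j
    omega
  have hzero : ∀ (i : Lab J r), ¬ 0 < wM cc rr M r i → ∀ p : ℕ, p.Prime → Z < p →
      bE W (fun j π => cc j (kp π)) (fun j π => rr j (kp π)) r i p = 0 := by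
    intro i hi p hp hZp
    rw [bE_states]
    refine sum_eq_zero fun k _ => ?_
    have h0 : wM cc rr M r i = 0 := le_antisymm (not_lt.1 hi) (hwM0 i)
    rw [wM_eq] at h0
    have h1 := (sum_eq_zero_iff_of_nonneg (fun k _ =>
      mul_nonneg (hM0 i.1 k) (iM_nonneg cc rr k i))).1 h0 k (mem_univ _)
    rcases mul_eq_zero.1 h1 with h2 | h2
    · have h3 : ∑ π ∈ univ.filter (fun π : Pat => kp π = k), W i.1 π p = 0 := by
        refine sum_eq_zero fun π hπ => ?_
        rw [hfil] at hπ
        have h4 := (mem_filter.1 hπ).2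
        have := hzjZ i.1 k
        exact hzj0 i.1 k h2 p hp (by omega) π h4.1 h4.2
      rw [h3, mul_zero]
    · rw [h2, zero_mul]
  obtain ⟨z0, hz0⟩ := genC hBW hFr hW (ι := Lab J r) (fun i => i.1) (cE cc rr r) w (fun i => by
      rw [hw]
      dsimp only
      split_ifs with h
      · exact ⟨h, hwMle i⟩
      · norm_num) (fun i q e => by
      unfold cE
      rw [abs_of_nonneg (iM_nonneg _ _ _ _)]
      have := iM_le cc rr r (kp q) i
      linarith) ⟨Z, fun z hz i => by
      have hnn : ∀ y, ∑ p ∈ PS z y, |bC W (fun i : Lab J r => i.1) (cE cc rr r) i p| =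
          ∑ k : Bool × Bool, iM cc rr r k i *
            ∑ p ∈ PS z y, ∑ π ∈ univ.filter (fun π => kp π = k), W i.1 π p := by
        intro y
        simp only [mul_sum]
        rw [sum_comm]
        refine sum_congr rfl fun p hp => ?_
        rw [← bE_bC, bE_states, abs_of_nonneg]
        · refine sum_congr rfl fun k _ => ?_
          rw [mul_sum]
        · refine sum_nonneg fun k _ => mul_nonneg (iM_nonneg _ _ _ _) (sum_nonneg fun π _ => ?_)
          exact (hW1 z (by omega) p (PSm hp).1 (PSm hp).2 i.1).1 π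
      choose Ck hCk using fun k : Bool × Bool => hzj1 i.1 k z ((hzjZ i.1 k).trans hz)
      refine ⟨∑ k, |Ck k| + 1, fun y hy => ?_⟩
      have hlog2 : -(1 : ℝ) / 2 ≤ Real.log (Real.log y) := by
        have h1 : (0.6931471803 : ℝ) < Real.log 2 := Real.log_two_gt_d9
        have h2 : Real.log 2 ≤ Real.log y :=
          Real.log_le_log (by norm_num) (by exact_mod_cast hy)
        have h3 : (1 : ℝ) - 1 / Real.log y ≤ Real.log (Real.log y) := by
          have := Real.one_sub_inv_le_log_of_pos (x := Real.log y) (by linarith)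
          rw [one_div]
          exact this
        have h4 : 1 / Real.log y ≤ 1 / 0.6931471803 :=
          one_div_le_one_div_of_le (by norm_num) (by linarith)
        have h5 : (1 : ℝ) / 0.6931471803 ≤ 3 / 2 := by norm_num
        linarith
      by_cases hpos : 0 < wM cc rr M r i
      · rw [hnn, hw]
        dsimp only
        rw [if_pos hpos, wM_eq, sum_mul]
        have h1 : ∑ k : Bool × Bool, iM cc rr r k i *
            ∑ p ∈ PS z y, ∑ π ∈ univ.filter (fun π => kp π = k), W i.1 π p ≤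
            ∑ k : Bool × Bool, (M i.1 k * iM cc rr r k i * Real.log (Real.log y) + |Ck k|) := by
          refine sum_le_sum fun k _ => ?_
          have h2 := hCk k y hy
          rw [← hfil k] at h2
          have h3 := iM_nonneg cc rr k i
          have h4 := iM_le cc rr r k i
          have h5 := mul_le_mul_of_nonneg_left h2 h3
          have h6 : iM cc rr r k i * Ck k ≤ |Ck k| := by
            have := le_abs_self (Ck k)
            have := abs_nonneg (Ck k)
            nlinarith
          refine h5.trans ?_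
          rw [mul_add]
          have h7 : iM cc rr r k i * (ms (f i.1) (K1 i.1) (K2 i.1) k.1 k.2 *
            Real.log (Real.log y)) = M i.1 k * iM cc rr r k i * Real.log (Real.log y) := by
            rw [hM]
            ring
          rw [h7]
          linarith
        refine h1.trans ?_
        rw [sum_add_distrib]
        linarith
      · have h1 : ∑ p ∈ PS z y, |bC W (fun i : Lab J r => i.1) (cE cc rr r) i p| = 0 := by
          refine sum_eq_zero fun p hp => ?_
          rw [← bE_bC, hzero i hpos p (PSm hp).1 (by have := (PSm hp).2; omega), abs_zero]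
        rw [h1, hw]
        dsimp only
        rw [if_neg hpos]
        have h2 : 0 ≤ ∑ k, |Ck k| := sum_nonneg fun _ _ => abs_nonneg _
        linarith⟩
    (LR τ r) (LR_self τ) (fun U => QE r U ∧ ∀ i ∈ U, 0 < wM cc rr M r i)
    ((Fintype.card J : ℕ) : ℝ) (Nat.cast_nonneg _) (fun U S hUS hU hQ => by
      have h1 := combM cc rr M hM0 hM1 τ U S hUS hU hQ.1 hQ.2
      have h2 : ∑ i ∈ UL (LR τ r) U S, w i = ∑ i ∈ UL (LR τ r) U S, wM cc rr M r i := by
        refine sum_congr rfl fun i hi => ?_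
        have h3 : i ∈ U := UL_sub hi
        rw [hw]
        dsimp only
        rw [if_pos (hQ.2 i (mem_union_left _ h3))]
      rw [h2]
      exact h1)
  refine ⟨z0 + Z + 2, fun z hz => ?_⟩
  obtain ⟨C, hC⟩ := hz0 z (by omega)
  refine ⟨C, fun y hy => ?_⟩
  rw [hEx J (fun j π => cc j (kp π)) (fun j π => rr j (kp π)) W θ τ r z y hθ (by omega) hWS
    (fun j π => by dsimp only; rw [kp_compl]) (fun j π => by dsimp only; rw [kp_compl])]
  refine (le_trans (le_of_eq ?_) (le_abs_self _)).trans ((hC y hy).trans (le_of_eq ?_))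
  · have hgm : ∀ d ∈ (Tup (Lab J r) z y).filter
        (fun d => QE r (univ.filter (fun i => d i ≠ 1))),
        ¬ (∀ i ∈ univ.filter (fun i => d i ≠ 1), 0 < wM cc rr M r i) →
        (∏ i : Lab J r, gm (bE W (fun j π => cc j (kp π)) (fun j π => rr j (kp π)) r i) (d i)) *
          Sym (LR τ r) (fun _ => 1) d = 0 := by
      intro d hd hne
      push Not at hne
      obtain ⟨i, hi, hi0⟩ := hne
      have hdi : d i ≠ 1 := (mem_filter.1 hi).2
      have hT := (mem_filter.1 hd).1
      have h1 := (AT.mem_Tup'.1 hT).1 i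
      obtain ⟨p, hp, hpd⟩ := Nat.exists_prime_and_dvd hdi
      have hzp := (dv_prime h1 hp hpd).1
      have h2 : gm (bE W (fun j π => cc j (kp π)) (fun j π => rr j (kp π)) r i) (d i) = 0 := by
        unfold gm
        refine prod_eq_zero (i := p) ?_ (hzero i (not_lt.2 hi0) p hp (by omega))
        rw [Nat.mem_primeFactors]
        exact ⟨hp, hpd, (Tup_pos hT i).ne'⟩
      rw [prod_eq_zero (mem_univ i) h2, zero_mul]
    have h3 : (Tup (Lab J r) z y).filter (fun d => QE r (univ.filter (fun i => d i ≠ 1)) ∧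
        ∀ i ∈ univ.filter (fun i => d i ≠ 1), 0 < wM cc rr M r i) =
        ((Tup (Lab J r) z y).filter (fun d => QE r (univ.filter (fun i => d i ≠ 1)))).filter
          (fun d => ∀ i ∈ univ.filter (fun i => d i ≠ 1), 0 < wM cc rr M r i) := by
      rw [filter_filter]
    rw [h3]
    symm
    rw [sum_filter]
    refine (sum_congr rfl fun d hd => ?_)
    split_ifs with h4
    · congr 1
      refine prod_congr rfl fun i _ => ?_
      congr 1
      funext p
      exact (bE_bC W cc rr r i p).symm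
    · exact (hgm d hd h4).symm
  · rw [Real.rpow_natCast]

end Pool.Agent.L7h19.EA
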