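import Mathlib
import Pool.Agent.L7h19.EA.Maj

/-!
# Project EA: the average of the power of the majorant
-/

set_option autoImplicit false
set_option linter.unusedSectionVars false

namespace Pool.Agent.L7h19.EA

open Finset Polynomial Pool.Agent.W262.RK Pool.Agent.W307.RT Pool.Agent.L7h19.RP Pool.Agent.L7h19.IS
open Pool.Agent.L7h19.IT
open Pool.Agent.L7h19.RP.AT (gm)
open Pool.Agent.L7h19.RH (Q0)
open Pool.Agent.W108.RK
open Pool.Agent.L7h19.IK (FR Lab LR LR_self S_LA Idp)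
open Pool.Agent.L7h19.FD (Pat WE avE WSym WP WHyp S_WHD avE_mono avE_add avE_smul)

variable {J : Type} [Fintype J] [DecidableEq J] {z y : ℕ}

lemma cpr_dvd (ρ : J → Pat → Bool) {s : J → ℕ} (hs : s ∈ Tup J z y) (E : Fin 3 → Finset ℕ) :
    cpr ρ s E ∣ ∏ j, s j := by
  unfold cpr
  refine prod_dvd_prod_of_dvd _ _ fun j _ => ?_
  have h1 : ∏ p ∈ (s j).primeFactors, p = s j :=
    Nat.prod_primeFactors_of_squarefree (sqf_of_mem hs j)
  conv_rhs => rw [← h1]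
  exact prod_dvd_prod_of_subset _ _ _ (filter_subset _ _)

lemma cpr_sqf (ρ : J → Pat → Bool) {s : J → ℕ} (hs : s ∈ Tup J z y) (E : Fin 3 → Finset ℕ) :
    Squarefree (cpr ρ s E) := (tup_sqf hs).squarefree_of_dvd (cpr_dvd ρ hs E)

lemma FR_zero (τ : Bool) (ε : ℕ → ℤ) (m n : ℕ) : FR τ ε 0 m n = 1 := by
  unfold FR
  rw [Fintype.piFinset_of_isEmpty, Fintype.piFinset_of_isEmpty, filter_true_of_mem]
  · simp
  · intro e _ y hy
    exact absurd (Subsingleton.elim y 0) hy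

/-- the rules -/
def cr (cc : J → Bool × Bool → Bool) (j : J) (π : Pat) : Bool := cc j (kp π)

/-- the majorant -/
noncomputable def PsE (k : ℕ) (cc rr : J → Bool × Bool → Bool) (s : J → ℕ)
    (E : Fin 3 → Finset ℕ) : ℝ := G3 (E 0) (cpr (cr cc) s E) (cpr (cr rr) s E) ^ k

lemma PsE_nonneg (k : ℕ) (cc rr : J → Bool × Bool → Bool) (s : J → ℕ) (E : Fin 3 → Finset ℕ) :
    0 ≤ PsE k cc rr s E := pow_nonneg (G3_nonneg _ _ _) _

/-- **the average of the majorant** -/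
theorem avgE (hBW : StBW) (hFr : StFree) (hEx : S_EXE) (hWD : S_WHD) (hWJ : S_WHJ) (hLA : S_LA)
    (f K1 K2 : J → ℤ[X]) (hf : ∀ j, Irreducible (f j)) (hd : ∀ j, 0 < (f j).natDegree)
    (hK1 : ∀ j, ¬ f j ∣ K1 j) (hK2 : ∀ j, ¬ f j ∣ K2 j) (cc rr : J → Bool × Bool → Bool)
    (k c : ℕ) :
    ∃ z0 : ℕ, ∀ z, z0 ≤ z → ∃ C : ℝ, ∀ y, z < y →
      ∑ s ∈ Tup J z y, avE (WP (fun _ => 3) f (kk K1 K2) c) (PsE k cc rr s) s ≤
        C * (Real.log y) ^ (Fintype.card J) := by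
  have hκ : ∀ j i, ¬ f j ∣ kk K1 K2 j i := by
    intro j i
    unfold kk
    split_ifs
    · intro h
      exact (hf j).not_isUnit (isUnit_of_dvd_one h)
    · exact hK1 j
    · exact hK2 j
  obtain ⟨G, zw, hW1, -, -, -⟩ := hWD J (fun _ => 3) f (kk K1 K2) c hf hd hκ
  have hj1 : ∀ p : ℕ, (fun p : ℕ => jacobiSym (-1) p) p = 1 ∨ (fun p : ℕ => jacobiSym (-1) p) p = -1 :=
    fun p => jacobiSym.eq_one_or_neg_one (by simp)
  have h11 : ∀ p : ℕ, (fun _ : ℕ => (1 : ℤ)) p = 1 ∨ (fun _ : ℕ => (1 : ℤ)) p = -1 :=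
    fun _ => Or.inl rfl
  obtain ⟨za, ha⟩ := majE hBW hFr hEx hWD hWJ f K1 K2 hf hd hK1 hK2 cc rr (fun _ => 1) h11 true 0 c
  obtain ⟨zb, hb⟩ := majE hBW hFr hEx hWD hWJ f K1 K2 hf hd hK1 hK2 cc rr (fun _ => 1) h11 true
    (2 * k) c
  obtain ⟨zc, hc⟩ := majE hBW hFr hEx hWD hWJ f K1 K2 hf hd hK1 hK2 cc rr
    (fun p => jacobiSym (-1) p) hj1 false (2 * k) c
  obtain ⟨zd, hd'⟩ := majE hBW hFr hEx hWD hWJ f K1 K2 hf hd hK1 hK2 rr cc
    (fun p => jacobiSym (-1) p) hj1 true (2 * k) c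
  obtain ⟨ze, he⟩ := majE hBW hFr hEx hWD hWJ f K1 K2 hf hd hK1 hK2 rr cc (fun _ => 1) h11 false
    (2 * k) c
  refine ⟨za + zb + zc + zd + ze + zw + (c + 3), fun z hz => ?_⟩
  obtain ⟨Ca, hCa⟩ := ha z (by omega)
  obtain ⟨Cb, hCb⟩ := hb z (by omega)
  obtain ⟨Cc, hCc⟩ := hc z (by omega)
  obtain ⟨Cd, hCd⟩ := hd' z (by omega)
  obtain ⟨Ce, hCe⟩ := he z (by omega)
  set A : ℝ := 4 ^ ((2 * k) ^ 2 + 1) with hA
  have hA0 : 0 ≤ A := by positivity
  refine ⟨A * (Ca + Cb + Cc + Cd + Ce), fun y hy => ?_⟩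
  have h1 := hCa y hy
  have h2 := hCb y hy
  have h3 := hCc y hy
  have h3' := hCd y hy
  have h3'' := hCe y hy
  have hAB : ∀ p : ℕ, p.Prime → z < p → ∀ j π, 0 ≤ WP (fun _ : J => 3) f (kk K1 K2) c j π p :=
    fun p hp hzp j π => (hW1 z (by omega) p hp hzp j).1 π
  set W : J → Pat → ℕ → ℝ := WP (fun _ => 3) f (kk K1 K2) c with hWd
  set F : Bool → (ℕ → ℤ) → ℕ → (J → Bool × Bool → Bool) → (J → Bool × Bool → Bool) → (J → ℕ) →
    (Fin 3 → Finset ℕ) → ℝ := fun τ θ r c1 c2 s E =>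
      FR τ (fun p => eE (E 0) p * θ p) r (cpr (fun j π => c1 j (kp π)) s E)
          (cpr (fun j π => c2 j (kp π)) s E) with hF
  have h4 : ∀ s ∈ Tup J z y, avE W (PsE k cc rr s) s ≤
      A * (avE W (F true (fun _ => 1) 0 cc rr s) s + avE W (F true (fun _ => 1) (2 * k) cc rr s) s +
        avE W (F false (fun p => jacobiSym (-1) p) (2 * k) cc rr s) s +
        avE W (F true (fun p => jacobiSym (-1) p) (2 * k) rr cc s) s +
        avE W (F false (fun _ => 1) (2 * k) rr cc s) s) := by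
    intro s hs
    have h5 : avE W (PsE k cc rr s) s ≤ avE W (fun E => A * ((((F true (fun _ => 1) 0 cc rr s E +
        F true (fun _ => 1) (2 * k) cc rr s E) +
        F false (fun p => jacobiSym (-1) p) (2 * k) cc rr s E) +
        F true (fun p => jacobiSym (-1) p) (2 * k) rr cc s E) +
        F false (fun _ => 1) (2 * k) rr cc s E)) s := by
      refine avE_mono hAB hs fun E => ?_
      have h6 := (hLA k (cpr (cr cc) s E) (cpr (cr rr) s E) (E 0) (cpr_sqf _ hs E)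
        (cpr_sqf _ hs E)).2
      have e1 : ∀ p, eE (E 0) p * (fun _ => 1 : ℕ → ℤ) p = eE (E 0) p := fun p => by simp
      have e2 : (fun p => eE (E 0) p * (fun _ => 1 : ℕ → ℤ) p) = eE (E 0) := funext e1
      rw [hF]
      dsimp only
      rw [FR_zero]
      refine h6.trans (le_of_eq ?_)
      have e3 : (fun p => eE (E 0) p * 1) = eE (E 0) := e2
      rw [e3]
      rfl
    refine h5.trans (le_of_eq ?_)
    rw [avE_smul, avE_add, avE_add, avE_add, avE_add]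
  refine (sum_le_sum h4).trans ?_
  rw [← mul_sum, sum_add_distrib, sum_add_distrib, sum_add_distrib, sum_add_distrib, mul_assoc]
  refine mul_le_mul_of_nonneg_left ?_ hA0
  rw [add_mul, add_mul, add_mul, add_mul]
  rw [hF]
  linarith

end Pool.Agent.L7h19.EA
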