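import Mathlib
import Pool.Agent.L7h19.FD.Main

/-!
# Project EA: the main theorem in short intervals, with a twist of the signs (adapted from
`Pool/Agent/L7h19/FD/Main.lean`)
-/

set_option autoImplicit false
set_option linter.unusedSectionVars false

namespace Pool.Agent.L7h19.EA

open Finset Polynomial Pool.Agent.W262.RK Pool.Agent.W307.RT Pool.Agent.L7h19.RJ
open Pool.Agent.L7h19.RP Pool.Agent.L7h19.IS Pool.Agent.L7h19.IT Pool.Agent.W108.RK
open Pool.Agent.L7h19.RH (Q0)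
open Pool.Agent.H474R2.PG (rho)
open Pool.Agent.L7h19.FD (nF RSum S_GRD nF_mod)

variable {J : Type} [Fintype J] [DecidableEq J]

/-- the bound for a nonnegative function of `t` by the local majorant `Ψ`; `N0` twists the signs -/
def RBF (g : ℝ) (cls : J → Fin 4) (κ : J → Fin 3 → ℤ[X]) (f : J → ℤ[X])
    (Ψ : (J → ℕ) → (Fin 3 → Finset ℕ) → ℝ) (N0 : (J → ℕ) → ℤ → Finset ℕ) (R : ℤ → ℝ) : Prop :=
  ∃ z1 : ℕ, ∀ z, z1 ≤ z → ∀ (t : ℤ) (y X k D : ℕ), Gd z (vf f t) →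
    (∀ j, (vf f t j).natAbs ≤ X ^ D) → 1 ≤ X → 1 ≤ y → X < (y + 1) ^ k →
    R t ≤ g ^ (z + 2) * (g ^ (D * Fintype.card J)) ^ k *
      g ^ (∑ j, (S2 z y (vf f t) j).primeFactors.card) *
      Ψ (S1 z y (vf f t)) (nF cls κ (S1 z y (vf f t)) t
        (symmDiff (negP cls f (fun _ => 1) t (S1 z y (vf f t))) (N0 (S1 z y (vf f t)) t)))

theorem mainF (hGR : S_GRD) {g : ℝ} (hg1 : 1 ≤ g) (cls : J → Fin 4) (κ : J → Fin 3 → ℤ[X])
    (f : J → ℤ[X]) (Ψ : (J → ℕ) → (Fin 3 → Finset ℕ) → ℝ) (N0 : (J → ℕ) → ℤ → Finset ℕ)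
    (hN1 : ∀ (s : J → ℕ) (t t' : ℤ), (∀ j, t ≡ t' [ZMOD (s j)]) → N0 s t = N0 s t')
    (hN2 : ∀ s t, N0 s t ⊆ P3 cls s) (R : ℤ → ℝ) (hf : ∀ j, Irreducible (f j))
    (hd : ∀ j, 0 < (f j).natDegree) (hnd : ∀ j l, j ≠ l → ¬ f j ∣ f l)
    (hΨ0 : ∀ s E, 0 ≤ Ψ s E)
    (hΨ : ∀ (z y : ℕ) (s e : J → ℕ) (E : Fin 3 → Finset ℕ), 2 ≤ z →
      (fun j => s j * e j) ∈ Tup J z y →
      Ψ s E = Ψ s (fun i => E i ∩ Q0 s) ∧
      Ψ (fun j => s j * e j) E ≤ g ^ (∑ j, (e j).primeFactors.card) * Ψ s E)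
    (hR0 : ∀ t, 0 ≤ R t) (hR : RBF g cls κ f Ψ N0 R)
    (hMaj : ∀ c : ℕ, ∃ z0 : ℕ, ∀ z, z0 ≤ z → ∃ C : ℝ, ∀ y, z < y →
      ∑ s ∈ Tup J z y, RSum cls f κ Ψ s * ∏ j, gw 1 c (s j) ≤ C * (Real.log y) ^ (Fintype.card J))
    (μ : ℕ) (hμ : 1 ≤ μ) :
    ∃ (X0 : ℕ) (B : ℝ), 0 ≤ B ∧ ∀ (X : ℕ) (T0 : ℤ), X0 ≤ X →
      (∀ t ∈ Icc 1 X, (T0 + (t : ℤ)).natAbs ≤ X ^ μ) →
      ∑ t ∈ (Icc 1 X).filter (fun t : ℕ => ∀ j, vf f (T0 + t) j ≠ 0), R (T0 + t) ≤ B * X := by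
  classical
  set N := Fintype.card J with hN
  set c : ℕ := 1 + ∑ j, (f j).natDegree with hc
  obtain ⟨z0, hz0⟩ := hMaj c
  obtain ⟨z1, hz1⟩ := hR
  choose Br hBr using fun j : J => Pool.Agent.H474R2.PG.rho_le (f j) (hf j).ne_zero
  choose Bd hBd using fun j : J => large_nd (hf j) (hd j) (nd_derivative (hd j))
  have hco : ∀ j l, ∃ B : ℕ, j ≠ l → ∀ p : ℕ, B < p → ∀ t : ℤ, (p : ℤ) ∣ (f j).eval t →
      ¬ (p : ℤ) ∣ (f l).eval t := by
    intro j l
    by_cases h : j = l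
    · exact ⟨0, fun h' => absurd h h'⟩
    · obtain ⟨B, hB⟩ := large_nd (hf j) (hd j) (hnd j l h)
      exact ⟨B, fun _ => hB⟩
  choose Bc hBc using hco
  set z : ℕ := z0 + z1 + (2 * c + 2) + ∑ j, Br j + ∑ j, Bd j + ∑ j, ∑ l, Bc j l with hz
  have hz2 : 2 ≤ z := by omega
  have hcz : 2 * c + 2 ≤ z := by omega
  have hcz' : c ≤ z := by omega
  have hdc : ∀ j, (f j).natDegree + 1 ≤ c := fun j => by
    have := le_sum_nat (fun j => (f j).natDegree) j
    have h' : (f j).natDegree ≤ ∑ j, (f j).natDegree := this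
    omega
  have hc1 : 1 ≤ c := by omega
  have hrho : ∀ p : ℕ, p.Prime → z < p → ∀ j, rho (f j) p ≤ c := fun p hp hzp j => by
    have e1 := le_sum_nat Br j
    have e2 := hBr j p hp (by omega)
    have e3 := hdc j
    omega
  have hBB : BgP f (fun _ => 1) c z := by
    refine ⟨hcz, hf, hd, fun p hp hzp => ?_, fun p hp hzp j t hj => ?_,
      fun p hp hzp j l hjl t hj => ?_, fun p hp hzp j t hjt h => ?_⟩
    · have e1 : ∑ j, rho (f j) p ≤ ∑ j, (f j).natDegree := sum_le_sum fun j _ => by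
        have e1 := le_sum_nat Br j
        exact hBr j p hp (by omega)
      omega
    · have e1 := le_sum_nat Bd j
      exact hBd j p (by omega) t hj
    · have e2 : Bc j l ≤ ∑ l, Bc j l := le_sum_nat (fun l => Bc j l) l
      have e3 : ∑ l, Bc j l ≤ ∑ j, ∑ l, Bc j l := le_sum_nat (fun j => ∑ l, Bc j l) j
      exact hBc j l hjl p (by omega) t hj
    · rw [eval_one] at h
      exact hp.one_lt.ne' (Nat.dvd_one.1 (by exact_mod_cast h))
  have hGdJ : ∀ t : ℤ, (∀ j, vf f t j ≠ 0) → Gd z (vf f t) := fun t ht =>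
    ⟨ht, fun p hp hzp j l hjl h => hBB.cop p hp hzp j l hjl t h.1 h.2⟩
  obtain ⟨C', hC'⟩ := hz0 z (by omega)
  obtain ⟨C, K, y0, hC0, hK1, hcn⟩ := stCntT J cls f (fun _ => 1) c z hBB
  set c' : ℕ := μ * c with hc'
  set y1 : ℕ := y0 + ∑ j, cS (f j) + 3 with hy1
  set b : ℝ := g * c with hb
  have hcr : (1 : ℝ) ≤ c := by exact_mod_cast hc1
  have hg0 : 0 ≤ g := by linarith
  have hb1 : 1 ≤ b := by rw [hb]; exact one_le_mul_of_one_le_of_one_le hg1 hcr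
  set D : ℝ := g ^ (c' * N) * c with hD
  have hD1 : 1 ≤ D := one_le_mul_of_one_le_of_one_le (one_le_pow₀ hg1) hcr
  have hRS0 : ∀ s, 0 ≤ RSum cls f κ Ψ s := fun s => sum_nonneg fun r _ =>
    mul_nonneg (by positivity) (sum_nonneg fun N _ => hΨ0 _ _)
  obtain ⟨X0, B, hB0, hmain⟩ := ant_u Pool.Agent.W591.RK2.ru Pool.Agent.W358.RK2.gr hb1 J z
    (RSum cls f κ Ψ) (C * g ^ (z + 2)) C' D K y1 c hcz
    hRS0 (by positivity) hD1
    (fun y hy s e hse => by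
      exact hGR J cls f κ c z y g Ψ hz2 hg0 hrho hΨ0 (fun s e E h => hΨ z y s e E hz2 h) s e hse) hC'
  refine ⟨X0 + 1, B, hB0, fun X T0 hX0 hTμ => ?_⟩
  have hX : 1 ≤ X := by omega
  have hXr : (1 : ℝ) ≤ X := by exact_mod_cast hX
  set TX : Finset ℕ := (Icc 1 X).filter (fun t : ℕ => ∀ j, vf f (T0 + t) j ≠ 0) with hTX
  have hmem : ∀ t ∈ TX, (1 ≤ t ∧ t ≤ X) ∧ ∀ j, vf f (T0 + t) j ≠ 0 := fun t ht => by
    rw [hTX, mem_filter, mem_Icc] at ht
    exact ht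
  refine hmain ℕ X TX (X : ℝ) (fun t : ℕ => vf f (T0 + (t : ℤ)))
    (fun t : ℕ => R (T0 + t)) (by omega) (by positivity)
    (fun t ht => hGdJ _ (hmem t ht).2) (fun t => hR0 _) ?_
  -- the bound for the classes
  intro y Y k hy0 hzy hyK hk s hs v hv u hu h8 T' hT'X hT'
  have hy00 : y0 ≤ y := by omega
  have hy3 : 3 ≤ y := by omega
  have hyX : y ≤ X := le_trans (Nat.le_self_pow (by omega) y) hyK
  have hcSy : ∀ j, cS (f j) ≤ y := fun j => by
    have e1 : cS (f j) ≤ ∑ j, cS (f j) := le_sum_nat (fun j => cS (f j)) j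
    omega
  have hyr : (3 : ℝ) ≤ y := by exact_mod_cast hy3
  have hlogy : 0 < Real.log y := Real.log_pos (by linarith)
  set m : ℕ := ∏ j, s j with hm
  have hm0 : m ≠ 0 := prod_ne_zero_iff.2 fun j _ => (Tup_pos hs j).ne'
  have hsm : ∀ j, s j ∣ m := fun j => dvd_prod_of_mem _ (mem_univ j)
  set W : ℝ := g ^ (z + 2) * (g ^ (c' * N)) ^ k *
    g ^ (∑ j, (v j).primeFactors.card) with hW
  have hW0 : 0 ≤ W := by positivity
  have hm00 : (0 : ℤ) < (m : ℤ) := by exact_mod_cast Nat.pos_of_ne_zero hm0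
  set τ : ℕ → ℕ := fun t => ((T0 + (t : ℤ)) % (m : ℤ)).toNat with hτd
  have hτ : ∀ t, ((τ t : ℕ) : ℤ) ≡ T0 + (t : ℤ) [ZMOD m] := by
    intro t
    have h0 := Int.emod_nonneg (T0 + (t : ℤ)) hm00.ne'
    rw [hτd]
    dsimp only
    rw [Int.toNat_of_nonneg h0]
    exact Int.mod_modEq _ _
  have hτl : ∀ t, τ t < m := by
    intro t
    have h0 := Int.emod_nonneg (T0 + (t : ℤ)) hm00.ne'
    have h1 := Int.emod_lt_of_pos (T0 + (t : ℤ)) hm00
    rw [hτd]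
    dsimp only
    omega
  set ng : ℕ → Finset ℕ := fun t => negP cls f (fun _ => 1) (T0 + (t : ℤ)) s with hng
  have hng3 : ∀ t, ng t ∈ (P3 cls s).powerset := fun t => by
    rw [hng, mem_powerset]
    unfold negP
    exact filter_subset _ _
  have hb1' : ∀ t ∈ T', R (T0 + t) ≤ W * Ψ s (nF cls κ s ((τ t : ℕ) : ℤ)
      (symmDiff (ng t) (N0 s ((τ t : ℕ) : ℤ)))) := by
    intro t ht
    obtain ⟨htX, ht0⟩ := hmem t (hT'X ht)
    obtain ⟨hts, htv, _⟩ := hT' t ht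
    have hr := hz1 z (by omega) (T0 + t) y X k c' (hGdJ (T0 + t) ht0) (fun j => by
        have e1 := eval_le (f j) (t := (T0 + (t : ℤ))) (X := X ^ μ) (hTμ t (mem_Icc.2 htX))
          (le_trans (by have := hcSy j; omega) (Nat.le_self_pow (by omega) X))
          (Nat.one_le_pow _ _ hX)
        rw [← pow_mul] at e1
        exact e1.trans (Nat.pow_le_pow_right hX (Nat.mul_le_mul_left _ (hdc j)))) hX (by omega) hk
    rw [hts, htv] at hr
    rw [hN1 s ((τ t : ℕ) : ℤ) (T0 + (t : ℤ)) (fun j => (hτ t).of_dvd (by exact_mod_cast hsm j)),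
      nF_mod (cls := cls) (κ := κ) (s := s) (t := ((τ t : ℕ) : ℤ)) (t' := T0 + (t : ℤ))
      _ (fun j => (hτ t).of_dvd (by exact_mod_cast hsm j))]
    exact hr
  have hmaps : ∀ t ∈ T', τ t ∈ Rs f s := by
    intro t ht
    obtain ⟨htX, ht0⟩ := hmem t (hT'X ht)
    obtain ⟨hts, htv, _⟩ := hT' t ht
    unfold Rs
    rw [mem_filter, mem_range]
    refine ⟨hτl t, fun j => ?_⟩
    have e1 : (s j : ℤ) ∣ vf f (T0 + t) j := by
      rw [← hts]
      unfold S1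
      push_cast
      refine Finset.prod_dvd_of_coprime ?_ ?_
      · intro p hp q hq hpq
        have hp' := (mem_PS.1 (mem_filter.1 hp).1).2
        have hq' := (mem_PS.1 (mem_filter.1 hq).1).2
        exact Nat.isCoprime_iff_coprime.2 ((Nat.coprime_primes hp' hq').2 hpq)
      · intro p hp
        exact (mem_filter.1 hp).2.1
    have e2 : (f j).eval ((τ t : ℕ) : ℤ) ≡ (f j).eval (T0 + (t : ℤ)) [ZMOD (s j)] :=
      eval_mod _ ((hτ t).of_dvd (by exact_mod_cast hsm j))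
    exact (e2.dvd_iff).2 e1
  set Q : ℝ := C * X * (∏ j, gw 1 c (s j)) *
        (∏ j, gr (f j) c (v j) / v j) * (∏ j, ru (f j) (u j)) / (Real.log y) ^ N with hQ
  set P2 : ℝ := (1 / 2) ^ (P3 cls s).card with hP2
  have hP20 : 0 ≤ P2 := by positivity
  have h3' : ∀ q ∈ Rs f s, ∀ N : Finset ℕ,
      ((T'.filter (fun t : ℕ => τ t = q ∧ ng t = N)).card : ℝ) ≤ P2 * Q := by
    intro q hq N
    have hrs : ∀ j, (s j : ℤ) ∣ (f j).eval (q : ℤ) := by
      unfold Rs at hq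
      exact (mem_filter.1 hq).2
    have h5 := hcn X y Y hy00 hzy hyK s hs v hv u hu h8 T0 (q : ℤ) N hrs
    have h6 : C * (X : ℝ) * (1 / 2) ^ (P3 cls s).card * (∏ j, gw 1 c (s j)) *
        (∏ j, gr (f j) c (v j) / v j) * (∏ j, ru (f j) (u j)) /
        (Real.log y) ^ (Fintype.card J) = P2 * Q := by
      rw [hQ, hP2]
      ring
    refine le_trans ?_ (h5.trans (le_of_eq h6))
    have h4 : T'.filter (fun t : ℕ => τ t = q ∧ ng t = N) ⊆
        (Icc 1 X).filter (fun t : ℕ => (T0 + (t : ℤ)) ≡ (q : ℤ) [ZMOD ((∏ j, s j : ℕ) : ℤ)] ∧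
          S1 z y (fun j => (f j).eval (T0 + (t : ℤ))) = s ∧
          S2 z y (fun j => (f j).eval (T0 + (t : ℤ))) = v ∧
          (∀ j, (u j : ℤ) ∣ (f j).eval (T0 + (t : ℤ))) ∧
          negP cls f (fun _ => 1) (T0 + (t : ℤ)) s = N) := by
      intro t ht
      rw [mem_filter] at ht
      obtain ⟨htX, ht0⟩ := hmem t (hT'X ht.1)
      obtain ⟨hts, htv, htu⟩ := hT' t ht.1
      rw [mem_filter, mem_Icc]
      refine ⟨htX, ?_, hts, htv, htu, ht.2.2⟩
      rw [← ht.2.1]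
      exact (hτ t).symm
    exact_mod_cast card_le_card h4
  have hvb : ∏ j, gr (f j) c (v j) / (v j : ℝ) ≤
      (c : ℝ) ^ (∑ j, (v j).primeFactors.card) * ∏ j, (gw 1 c (v j) / (v j : ℝ)) := by
    rw [← prod_pow_eq_pow_sum, ← prod_mul_distrib]
    refine prod_le_prod (fun j _ => div_nonneg (gr_le hcz (fun p hp hzp => hrho p hp hzp j)
        ((mem_Tup'.1 hv).1 j)).1 (Nat.cast_nonneg _)) fun j _ => ?_
    rw [← mul_div_assoc]
    exact div_le_div_of_nonneg_right (gr_le hcz (fun p hp hzp => hrho p hp hzp j)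
        ((mem_Tup'.1 hv).1 j)).2 (Nat.cast_nonneg _)
  have hub : ∏ j, ru (f j) (u j) ≤ (c : ℝ) ^ k * ∏ j, 1 / (u j : ℝ) := by
    have e1 : ∏ j, ru (f j) (u j) ≤
        ∏ j, ((c : ℝ) ^ (u j).primeFactors.card * (1 / (u j : ℝ))) := by
      refine prod_le_prod (fun j _ => (ru_le hzy.le (fun p hp hzp => hrho p hp hzp j)
        ((mem_Tup'.1 hu).1 j)).1) fun j _ => ?_
      exact (ru_le hzy.le (fun p hp hzp => hrho p hp hzp j) ((mem_Tup'.1 hu).1 j)).2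
    refine e1.trans ?_
    rw [prod_mul_distrib, prod_pow_eq_pow_sum]
    refine mul_le_mul_of_nonneg_right ?_ (prod_nonneg fun j _ => by positivity)
    refine pow_le_pow_right₀ hcr (card_u hu (X := X) ?_ hk)
    have e3 : ∏ j, u j ≤ ∏ j, s j * v j * u j := by
      refine prod_le_prod' fun j _ => ?_
      have e4 := Tup_pos hs j
      have e5 := Tup_pos hv j
      exact Nat.le_mul_of_pos_left _ (Nat.mul_pos e4 e5)
    refine e3.trans (le_trans ?_ h8)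
    exact Nat.le_self_pow (by norm_num) _
  set Q' : ℝ := C * X * (∏ j, gw 1 c (s j)) *
        ((c : ℝ) ^ (∑ j, (v j).primeFactors.card) * ∏ j, (gw 1 c (v j) / (v j : ℝ))) *
        ((c : ℝ) ^ k * ∏ j, 1 / (u j : ℝ)) / (Real.log y) ^ N with hQ'
  have hgs : 0 ≤ ∏ j, gw 1 c (s j) := prod_nonneg fun j _ => gw_nn hcz' hs j
  have hgr0 : 0 ≤ ∏ j, gr (f j) c (v j) / (v j : ℝ) :=
    prod_nonneg fun j _ => div_nonneg (gr_le hcz (fun p hp hzp => hrho p hp hzp j)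
        ((mem_Tup'.1 hv).1 j)).1 (Nat.cast_nonneg _)
  have hru0 : 0 ≤ ∏ j, ru (f j) (u j) :=
    prod_nonneg fun j _ => (ru_le hzy.le (fun p hp hzp => hrho p hp hzp j)
        ((mem_Tup'.1 hu).1 j)).1
  have hQQ : Q ≤ Q' := by
    rw [hQ, hQ']
    refine div_le_div_of_nonneg_right ?_ (by positivity)
    refine mul_le_mul (mul_le_mul_of_nonneg_left hvb (by positivity)) hub hru0 ?_
    refine mul_nonneg (by positivity) (hgr0.trans hvb)
  have hQ0 : 0 ≤ Q' := by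
    have h0 : 0 ≤ Q := by
      rw [hQ]
      positivity
    exact h0.trans hQQ
  have hbij : ∀ q : ℕ, ∑ N ∈ (P3 cls s).powerset, W * Ψ s (nF cls κ s (q : ℤ)
      (symmDiff N (N0 s (q : ℤ)))) * (P2 * Q') =
      ∑ N ∈ (P3 cls s).powerset, W * Ψ s (nF cls κ s (q : ℤ) N) * (P2 * Q') := by
    intro q
    have hsub : ∀ N ∈ (P3 cls s).powerset, symmDiff N (N0 s (q : ℤ)) ∈ (P3 cls s).powerset := by
      intro N hN
      rw [mem_powerset] at hN ⊢
      intro p hp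
      rw [mem_symmDiff] at hp
      rcases hp with hp | hp
      · exact hN hp.1
      · exact hN2 s _ hp.1
    refine sum_nbij' (fun N => symmDiff N (N0 s (q : ℤ))) (fun N => symmDiff N (N0 s (q : ℤ)))
      hsub hsub ?_ ?_ ?_
    · intro N _
      exact symmDiff_symmDiff_cancel_right _ _
    · intro N _
      exact symmDiff_symmDiff_cancel_right _ _
    · intro N _
      rfl
  have hkey : ∑ t ∈ T', R (T0 + t) ≤ W * RSum cls f κ Ψ s * Q' := by
    calc ∑ t ∈ T', R (T0 + t) ≤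
          ∑ t ∈ T', W * Ψ s (nF cls κ s ((τ t : ℕ) : ℤ)
            (symmDiff (ng t) (N0 s ((τ t : ℕ) : ℤ)))) := sum_le_sum hb1'
      _ = ∑ q ∈ Rs f s, ∑ t ∈ T'.filter (fun t => τ t = q),
            W * Ψ s (nF cls κ s ((τ t : ℕ) : ℤ) (symmDiff (ng t) (N0 s ((τ t : ℕ) : ℤ)))) :=
          (sum_fiberwise_of_maps_to hmaps _).symm
      _ = ∑ q ∈ Rs f s, ∑ N ∈ (P3 cls s).powerset, ∑ t ∈ (T'.filter (fun t => τ t = q)).filter
            (fun t => ng t = N), W * Ψ s (nF cls κ s ((τ t : ℕ) : ℤ)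
              (symmDiff (ng t) (N0 s ((τ t : ℕ) : ℤ)))) :=
          sum_congr rfl fun q _ => (sum_fiberwise_of_maps_to (fun t _ => hng3 t) _).symm
      _ = ∑ q ∈ Rs f s, ∑ N ∈ (P3 cls s).powerset,
            W * Ψ s (nF cls κ s (q : ℤ) (symmDiff N (N0 s (q : ℤ)))) *
              ((T'.filter (fun t : ℕ => τ t = q ∧ ng t = N)).card : ℝ) := by
          refine sum_congr rfl fun q _ => sum_congr rfl fun N _ => ?_
          rw [filter_filter, sum_congr rfl (fun t ht => by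
            rw [(mem_filter.1 ht).2.1, (mem_filter.1 ht).2.2]), sum_const, nsmul_eq_mul, mul_comm]
      _ ≤ ∑ q ∈ Rs f s, ∑ N ∈ (P3 cls s).powerset, W * Ψ s (nF cls κ s (q : ℤ)
            (symmDiff N (N0 s (q : ℤ)))) * (P2 * Q') :=
          sum_le_sum fun q hq => sum_le_sum fun N _ =>
            mul_le_mul_of_nonneg_left ((h3' q hq N).trans
              (mul_le_mul_of_nonneg_left hQQ hP20)) (mul_nonneg hW0 (hΨ0 _ _))
      _ = ∑ q ∈ Rs f s, ∑ N ∈ (P3 cls s).powerset, W * Ψ s (nF cls κ s (q : ℤ) N) *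
            (P2 * Q') := sum_congr rfl fun q _ => hbij q
      _ = _ := by
          unfold RSum
          rw [← hP2]
          simp only [mul_sum, sum_mul]
          refine sum_congr rfl fun q _ => sum_congr rfl fun N _ => ?_
          ring
  refine hkey.trans (le_of_eq ?_)
  have hL : (Real.log y) ^ N ≠ 0 := by positivity
  have e2 : (∏ j, b ^ (v j).primeFactors.card * (gw 1 c (v j) / (v j : ℝ))) =
      b ^ (∑ j, (v j).primeFactors.card) * ∏ j, (gw 1 c (v j) / (v j : ℝ)) := by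
    rw [prod_mul_distrib, prod_pow_eq_pow_sum]
  rw [e2, hQ', hW, hD, hb, mul_pow, mul_pow]
  rw [show Fintype.card J = N from rfl]
  field_simp

end Pool.Agent.L7h19.EA
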