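import Mathlib
import Pool.Agent.L7h19.EA.Stm

/-!
# Project EA: the cases of `S_POL`
-/

set_option autoImplicit false

namespace Pool.Agent.L7h19.EA

open Finset Polynomial

/-- the conclusion of `S_POL` -/
def PolD (a b f : ℤ[X]) : Prop :=
  ∃ (R1 R2 : Option Bool) (K1 K2 : ℤ[X]) (base : ℕ → ℤ → Bool) (z0 : ℕ), ¬ f ∣ K1 ∧ ¬ f ∣ K2 ∧
    (∀ (p : ℕ) (t t' : ℤ), t ≡ t' [ZMOD p] → base p t = base p t') ∧
    ∀ (p : ℕ) [Fact p.Prime] (t : ℤ), z0 < p → (p : ℤ) ∣ f.eval t → ¬ (p : ℤ) ^ 2 ∣ f.eval t →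
      (b * (a ^ 2 - 4 * b)).eval t ≠ 0 →
      Loc p (a.eval t) (b.eval t) (rl R1 p (K1.eval t)) (rl R2 p (K2.eval t))
        (xor (base p t) (!sq p (f.eval t / p)))

/-- the setting -/
def PSet (a b f : ℤ[X]) : Prop :=
  b * (a ^ 2 - 4 * b) ≠ 0 ∧ Irreducible f ∧ 0 < f.natDegree

/-- **S_P1** (may assume `h1 : S_N1`, `h2 : S_N2`): column `β` odd or `a` a square, row false. The dual
curve: `-2 (-2 a) = 4 a`, `(-2 a)² - 4 (a² - 4 b) = 16 b`. -/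
def S_P1 : Prop := ∀ a b f : ℤ[X], PSet a b f → ¬ f ∣ a → f ∣ b → PolD a b f

/-- **S_P2** (may assume `h1 : S_N1`, `h2 : S_N2`): column false, row `γ` odd or `-2 a` a square -/
def S_P2 : Prop := ∀ a b f : ℤ[X], PSet a b f → ¬ f ∣ a → ¬ f ∣ b → f ∣ a ^ 2 - 4 * b → PolD a b f

/-- **S_P3** (may assume `h3 : S_N3`): both false -/
def S_P3 : Prop := ∀ a b f : ℤ[X], PSet a b f → ¬ f ∣ b → ¬ f ∣ a ^ 2 - 4 * b → PolD a b f

/-- **S_P4** (may assume `h4 : S_N4`, `h5 : S_N5`): `a = f a''`, `b = f ^ β b''`; column true; row: `β` odd: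
`-a'' b''` (the exponent of `f(t) / p` in `-(a / p) up b` is even), `β` even: `b''`; `base p t = !sq p (-a''(t))`.
Dual curve: `S_N5`, `2 (-2 a / p) up (16 b) = -64 (a / p) up b`. -/
def S_P4 : Prop := ∀ a b f : ℤ[X], PSet a b f → f ∣ a → ¬ f ^ 2 ∣ a → f ^ 3 ∣ b → PolD a b f

/-- **S_P5** (may assume `h4 : S_N4`, `h5 : S_N5`): column: `γ` odd: `2 a'' c''`, `γ` even: `c''`; row true;
`base p t = !sq p (-2 a''(t))`. Dual curve: `S_N4`. -/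
def S_P5 : Prop := ∀ a b f : ℤ[X], PSet a b f → f ∣ a → ¬ f ^ 2 ∣ a → f ^ 2 ∣ b →
  f ^ 3 ∣ a ^ 2 - 4 * b → PolD a b f

/-- **S_P6** (may assume `h6 : S_N6`): `a = f a''`, `b = f² b''`, `c = f² c''`; column `c''`, row `b''`,
`base p t = rt p (a''(t)) (b''(t))`: the roots of `u² + φ a'' u + φ² b''`, `φ = f(t) / p`, are `φ w`. Only if column
and row are true the sign matters; then `b'' ≡ β²`, `c'' ≡ γ²`, the roots `w, w' = (-a'' ± γ) / 2` have the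
same symbol; the roots of the dual curve (`w² - 2 a'' w + c''`) are `a'' ± 2 β`, and
`w (a'' + 2 β) = -(w + w') w + 2 β w`, with `w w' = β²`: `= -(w² + β² - 2 β w) = -(w - β)²`, so the symbols differ by
`(-1 / p)` (choose `β` with `w ≠ β`). -/
def S_P6 : Prop := ∀ a b f : ℤ[X], PSet a b f → f ∣ a → f ^ 2 ∣ b → ¬ f ^ 3 ∣ b →
  ¬ f ^ 3 ∣ a ^ 2 - 4 * b → PolD a b f

/-- **S_P7** (may assume `h7 : S_N7`): `base p t = !sq p (b''(t))`, `b = f b''`; dual: `c / p ≡ -4 b / p` -/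
def S_P7 : Prop := ∀ a b f : ℤ[X], PSet a b f → f ∣ a → f ∣ b → ¬ f ^ 2 ∣ b → PolD a b f

/-- **S_P8** (may assume `h8 : S_N8`): `b = f³ b''`, `base p t = !sq p (b''(t))` (`φ³ ~ φ`) -/
def S_P8 : Prop := ∀ a b f : ℤ[X], PSet a b f → f ^ 2 ∣ a → f ^ 3 ∣ b → ¬ f ^ 4 ∣ b → PolD a b f

/-- **S_PR**: the reduction: `i` maximal with `f ^ (2 i) ∣ a`, `f ^ (4 i) ∣ b` (it exists as `b ≠ 0`); scaling
with `g = f(t) ^ i` (`S_SCL` for the curve and the dual curve); then one of the eight cases. -/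
def S_PR : Prop := S_SCL → S_P1 → S_P2 → S_P3 → S_P4 → S_P5 → S_P6 → S_P7 → S_P8 → S_POL

end Pool.Agent.L7h19.EA
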