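import Mathlib
import Pool.Agent.L7h19.EA.Avg
import Pool.Agent.L7h19.EA.Fin
import Pool.Agent.L7h19.EA.Stm2
import Pool.Agent.W571.RT.Rank2

/-!
# Project EA: the moments of the rank, abstract form
-/

set_option autoImplicit false
set_option linter.unusedSectionVars false

namespace Pool.Agent.L7h19.EA

open Finset Polynomial Pool.Agent.W262.RK Pool.Agent.W307.RT Pool.Agent.L7h19.RP
open Pool.Agent.L7h19.IS Pool.Agent.L7h19.IT UniqueFactorizationMonoid
open Pool.Agent.L7h19.RH (Q0)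
open Pool.Agent.L7h19.IK (S_LA)
open Pool.Agent.L7h19.FD (Pat WE avE WSym WP WHyp S_WHD nF RSum S_GRD S_CRD)

/-- the irreducible factors of positive degree -/
noncomputable def SP (D : ℤ[X]) : Finset ℤ[X] := by
  classical
  exact (normalizedFactors D).toFinset.filter (fun f => 0 < f.natDegree)

lemma mem_SP {D f : ℤ[X]} : f ∈ SP D ↔ f ∈ normalizedFactors D ∧ 0 < f.natDegree := by
  classical
  unfold SP
  rw [mem_filter, Multiset.mem_toFinset]

lemma SP_nd {D f g : ℤ[X]} (hf : f ∈ SP D) (hg : g ∈ SP D) (h : f ≠ g) : ¬ f ∣ g := by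
  intro hd
  have h1 := (mem_SP.1 hf).1
  have h2 := (mem_SP.1 hg).1
  have i1 := irreducible_of_normalized_factor f h1
  have i2 := irreducible_of_normalized_factor g h2
  have h3 : Associated f g := i1.associated_of_dvd i2 hd
  apply h
  exact h3.eq_of_normalized (normalize_normalized_factor f h1) (normalize_normalized_factor g h2)

/-- the value of `D` is, up to a sign, the product of the values of the factors -/
lemma eval_fac {D : ℤ[X]} (hD : D ≠ 0) (t : ℤ) :
    Associated ((normalizedFactors D).map (fun f => f.eval t)).prod (D.eval t) := by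
  have h1 : Associated (normalizedFactors D).prod D := prod_normalizedFactors hD
  obtain ⟨w, hw⟩ := h1
  have h2 : ((normalizedFactors D).map (fun f => f.eval t)).prod =
      (evalRingHom t) (normalizedFactors D).prod := by
    rw [map_multiset_prod]
    rfl
  refine ⟨Units.map (evalRingHom t).toMonoidHom w, ?_⟩
  rw [h2]
  have h3 : (evalRingHom t) D = (evalRingHom t) (normalizedFactors D).prod *
      (evalRingHom t) (w : ℤ[X]) := by
    rw [← map_mul, hw]
  exact h3.symm

lemma exists_SP {D : ℤ[X]} (hD : D ≠ 0) (t : ℤ) (p : ℕ) (hp : p.Prime)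
    (hz : ∀ f ∈ normalizedFactors D, (f.coeff 0).natAbs < p) (h : (p : ℤ) ∣ D.eval t) :
    ∃ f ∈ SP D, (p : ℤ) ∣ f.eval t := by
  have hp' : Prime (p : ℤ) := Nat.prime_iff_prime_int.1 hp
  have h1 : (p : ℤ) ∣ ((normalizedFactors D).map (fun f => f.eval t)).prod :=
    h.trans (eval_fac hD t).symm.dvd
  obtain ⟨x, hx, hpx⟩ := hp'.exists_mem_multiset_dvd h1
  obtain ⟨f, hf, rfl⟩ := Multiset.mem_map.1 hx
  refine ⟨f, mem_SP.2 ⟨hf, ?_⟩, hpx⟩
  by_contra h2
  have h3 : f.natDegree = 0 := by omega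
  have h4 := eq_C_of_natDegree_eq_zero h3
  have h5 : f.eval t = f.coeff 0 := by
    conv_lhs => rw [h4]
    rw [eval_C]
  rw [h5] at hpx
  have h6 : f.coeff 0 ≠ 0 := by
    intro h7
    rw [h7, C_0] at h4
    exact (irreducible_of_normalized_factor f hf).ne_zero h4
  have h7 := Nat.le_of_dvd (Int.natAbs_pos.2 h6) (Int.natCast_dvd.1 hpx)
  have h8 := hz f hf
  omega

lemma eval_ne {D : ℤ[X]} (hD : D ≠ 0) (t : ℤ) : D.eval t ≠ 0 ↔ ∀ f ∈ SP D, f.eval t ≠ 0 := by
  constructor
  · intro h f hf h1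
    apply h
    have h2 : f ∣ D := dvd_of_mem_normalizedFactors (mem_SP.1 hf).1
    obtain ⟨g, hg⟩ := h2
    rw [hg, eval_mul, h1, zero_mul]
  · intro h h1
    have h2 : ((normalizedFactors D).map (fun f => f.eval t)).prod = 0 := by
      have := eval_fac hD t
      rw [h1] at this
      exact (associated_zero_iff_eq_zero _).1 this
    rw [Multiset.prod_eq_zero_iff] at h2
    obtain ⟨f, hf, h3⟩ := Multiset.mem_map.1 h2
    by_cases h4 : 0 < f.natDegree
    · exact h f (mem_SP.2 ⟨hf, h4⟩) h3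
    · have h5 : f.natDegree = 0 := by omega
      have h6 := eq_C_of_natDegree_eq_zero h5
      rw [h6, eval_C] at h3
      rw [h3, C_0] at h6
      exact (irreducible_of_normalized_factor f hf).ne_zero h6

lemma jac_pm {p : ℕ} (hp : p.Prime) {x : ℤ} (hx : ¬ (p : ℤ) ∣ x) :
    jacobiSym x p = 1 ∨ jacobiSym x p = -1 := by
  have hg : Int.gcd x p = 1 := by
    have h6 : Nat.Coprime p x.natAbs := (Nat.Prime.coprime_iff_not_dvd hp).2
      (fun h7 => hx (Int.natCast_dvd.2 h7))
    have h7 : Int.gcd x p = Nat.gcd x.natAbs p := rfl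
    rw [h7, Nat.gcd_comm]
    exact h6
  exact jacobiSym.eq_one_or_neg_one hg

lemma dec_sign {P N M : Prop} {j : ℤ} {b : Bool} [Decidable P] (hP : P ↔ ¬ (N ↔ M))
    (hN : N ↔ j = -1) (hM : M ↔ b = true) (hj : j = 1 ∨ j = -1) :
    decide P = xor b (!decide (j = 1)) := by
  rcases hj with rfl | rfl
  · have h1 : ¬ N := fun h => by
      have := hN.1 h
      norm_num at this
    by_cases h2 : M
    · rw [hM.1 h2, decide_eq_true (hP.2 (by tauto))]
      rfl
    · have h3 : b = false := by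
        cases b
        · rfl
        · exact absurd (hM.2 rfl) h2
      rw [h3, decide_eq_false (fun h => hP.1 h (by tauto))]
      rfl
  · have h1 : N := hN.2 rfl
    by_cases h2 : M
    · rw [hM.1 h2, decide_eq_false (fun h => hP.1 h (by tauto))]
      rfl
    · have h3 : b = false := by
        cases b
        · rfl
        · exact absurd (hM.2 rfl) h2
      rw [h3, decide_eq_true (hP.2 (by tauto))]
      rfl

lemma dec_kp {P Q N : Prop} {j : ℤ} [Decidable P] [Decidable Q] (hP : P ↔ N)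
    (hQ : Q ↔ (j = -1 ↔ ¬ N)) (hj : j = 1 ∨ j = -1) :
    decide (j = 1) = !(xor (decide P) (decide Q)) := by
  by_cases hN : N
  · rw [decide_eq_true (hP.2 hN)]
    rcases hj with h1 | h1
    · have h2 : Q := hQ.2 ⟨fun h => by rw [h1] at h; norm_num at h, fun h => absurd hN h⟩
      rw [decide_eq_true h2, decide_eq_true h1]
      rfl
    · have h2 : ¬ Q := fun h => (hQ.1 h).1 h1 hN
      have h3 : ¬ j = 1 := fun h => by rw [h1] at h; norm_num at h
      rw [decide_eq_false h2, decide_eq_false h3]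
      rfl
  · rw [decide_eq_false (fun h => hN (hP.1 h))]
    rcases hj with h1 | h1
    · have h2 : ¬ Q := fun h => by
        have := (hQ.1 h).2 hN
        rw [h1] at this
        norm_num at this
      rw [decide_eq_false h2, decide_eq_true h1]
      rfl
    · have h2 : Q := hQ.2 ⟨fun _ => hN, fun _ => h1⟩
      have h3 : ¬ j = 1 := fun h => by rw [h1] at h; norm_num at h
      rw [decide_eq_true h2, decide_eq_false h3]
      rfl

/-- the rule of a factor -/
def rule (R : Option Bool) (k : Bool) : Bool := R.getD (!k)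

open Classical in
/-- **all moments, abstract form** -/
theorem absE (hRK : S_RKE) (hGF : S_GFE) (hGR : S_GRD) (hCR : S_CRD) (hEx : S_EXE) (hWD : S_WHD)
    (hWJ : S_WHJ) (hLA : S_LA) (hPol : S_POL) (hBW : StBW) (hFr : StFree)
    (a b : ℤ[X]) (hab : b * (a ^ 2 - 4 * b) ≠ 0) (k : ℕ) (ε : ℝ) (hε : 0 < ε) :
    ∃ C : ℝ, 0 ≤ C ∧ ∀ (X : ℕ) (u v : ℤ), 1 ≤ X → u.natAbs ≤ X → v.natAbs ≤ X →
      (X : ℝ) ^ ε ≤ (v : ℝ) - u →
      ∑ t ∈ (Icc u v).filter (fun t : ℤ => b.eval t * (a.eval t ^ 2 - 4 * b.eval t) ≠ 0),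
        ((2 : ℝ) ^ ((Module.finrank ℤ (EI (a.eval t) (b.eval t)).toAffine.Point : ℕ) -
          |dl (a.eval t) (b.eval t)| : ℝ)) ^ k ≤ C * ((v : ℝ) - u) := by
  set Dp : ℤ[X] := b * (a ^ 2 - 4 * b) with hDp
  set J : Type := {f : ℤ[X] // f ∈ SP Dp} with hJ
  set F : J → ℤ[X] := fun j => j.1 with hF
  have hirr : ∀ j, Irreducible (F j) := fun j =>
    irreducible_of_normalized_factor _ (mem_SP.1 j.2).1
  have hdeg : ∀ j, 0 < (F j).natDegree := fun j => (mem_SP.1 j.2).2
  have hnd : ∀ j l, j ≠ l → ¬ F j ∣ F l := fun j l hjl =>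
    SP_nd j.2 l.2 (fun h1 => hjl (Subtype.ext h1))
  have hev : ∀ t : ℤ, Dp.eval t = b.eval t * (a.eval t ^ 2 - 4 * b.eval t) := by
    intro t
    rw [hDp]
    simp
  have hne : ∀ t : ℤ, b.eval t * (a.eval t ^ 2 - 4 * b.eval t) ≠ 0 ↔ ∀ j, vf F t j ≠ 0 := by
    intro t
    rw [← hev, eval_ne hab]
    constructor
    · intro h j
      exact h j.1 j.2
    · intro h f hf
      exact h ⟨f, hf⟩
  choose R1 R2 K1 K2 base zj hK1 hK2 hbase hloc using fun j : J => hPol a b (F j) hab (hirr j) (hdeg j)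
  set cc : J → Bool × Bool → Bool := fun j κ => rule (R1 j) κ.1 with hcc
  set rr : J → Bool × Bool → Bool := fun j κ => rule (R2 j) κ.2 with hrr
  set cls : J → Fin 4 := fun _ => 3 with hcls
  set κ : J → Fin 3 → ℤ[X] := kk K1 K2 with hκd
  set Ψ : (J → ℕ) → (Fin 3 → Finset ℕ) → ℝ := PsE k cc rr with hΨd
  set N0 : (J → ℕ) → ℤ → Finset ℕ := fun s t =>
    (P3 cls s).filter (fun p => ∃ j, p ∣ s j ∧ base j p t = true) with hN0
  set g : ℝ := 64 ^ k with hg
  have hg1 : 1 ≤ g := one_le_pow₀ (by norm_num)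
  have hκ : ∀ j i, ¬ F j ∣ κ j i := by
    intro j i
    rw [hκd]
    unfold kk
    split_ifs
    · intro h
      exact (hirr j).not_isUnit (isUnit_of_dvd_one h)
    · exact hK1 j
    · exact hK2 j
  have hN1 : ∀ (s : J → ℕ) (t t' : ℤ), (∀ j, t ≡ t' [ZMOD (s j)]) → N0 s t = N0 s t' := by
    intro s t t' h
    rw [hN0]
    refine filter_congr fun p _ => ?_
    refine exists_congr fun j => and_congr_right fun hpj => ?_
    rw [hbase j p t t' ((h j).of_dvd (Int.natCast_dvd_natCast.2 hpj))]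
  have hN2 : ∀ s t, N0 s t ⊆ P3 cls s := fun s t => filter_subset _ _
  set E : ℤ → ℝ := fun t => (Module.finrank ℤ (EI (a.eval t) (b.eval t)).toAffine.Point : ℕ) -
          |dl (a.eval t) (b.eval t)| with hE
  set R : ℤ → ℝ := fun t => if ∀ j, vf F t j ≠ 0 then ((2 : ℝ) ^ (E t)) ^ k else 0 with hRd
  have hR0 : ∀ t, 0 ≤ R t := fun t => by
    rw [hRd]
    dsimp only
    split_ifs
    · exact pow_nonneg (Real.rpow_nonneg (by norm_num) _) _
    · exact le_rfl
  have hΨ0 : ∀ s E, 0 ≤ Ψ s E := fun s E => PsE_nonneg _ _ _ _ _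
  have hΨ : ∀ (z y : ℕ) (s e : J → ℕ) (E : Fin 3 → Finset ℕ), 2 ≤ z →
      (fun j => s j * e j) ∈ Tup J z y →
      Ψ s E = Ψ s (fun i => E i ∩ Q0 s) ∧
      Ψ (fun j => s j * e j) E ≤ g ^ (∑ j, (e j).primeFactors.card) * Ψ s E := by
    intro z y s e E hz hse
    obtain ⟨h1, h2⟩ := hGF J (cr cc) (cr rr) z y s e E hz hse
    refine ⟨?_, ?_⟩
    · rw [hΨd]
      unfold PsE
      rw [h1]
    · rw [hΨd]
      unfold PsE
      calc G3 (E 0) (cpr (cr cc) (fun j => s j * e j) E) (cpr (cr rr) (fun j => s j * e j) E) ^ k ≤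
            (64 ^ (∑ j, (e j).primeFactors.card) *
              G3 (E 0) (cpr (cr cc) s E) (cpr (cr rr) s E)) ^ k :=
            pow_le_pow_left₀ (G3_nonneg _ _ _) h2 k
        _ = _ := by
            rw [mul_pow, ← pow_mul, ← pow_mul, mul_comm k]
  choose Bn hBn using fun (j : J) (i : Fin 3) => large_nd (hirr j) (hdeg j) (hκ j i)
  have hRB : RBF g cls κ F Ψ N0 R := by
    refine ⟨(∑ f ∈ (normalizedFactors Dp).toFinset, (f.coeff 0).natAbs) + ∑ j, zj j +
      ∑ j, ∑ i, Bn j i + 2, fun z hz t y X k' d hGd hx hX hy hk' => ?_⟩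
    have h1 : R t = ((2 : ℝ) ^ (E t)) ^ k := if_pos hGd.1
    rw [h1]
    have hS : S1 z y (vf F t) ∈ Tup J z y := Pool.Agent.W45.RT.S1_mem hGd
    have huniq : ∀ (p : ℕ), p.Prime → ∀ j j', p ∣ S1 z y (vf F t) j → p ∣ S1 z y (vf F t) j' →
        j' = j := by
      intro p hp j j' hj hj'
      by_contra hne
      have h3 := (mem_Tup'.1 hS).2 j' j hne
      have h4 : p ∣ 1 := by
        rw [← Nat.Coprime.gcd_eq_one h3]
        exact Nat.dvd_gcd hj' hj
      exact hp.one_lt.ne' (Nat.dvd_one.1 h4)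
    have hQ0 : ∀ (p : ℕ), p.Prime → ∀ j, p ∣ S1 z y (vf F t) j → p ∈ Q0 (S1 z y (vf F t)) := by
      intro p hp j hpj
      unfold Q0
      rw [Nat.mem_primeFactors]
      exact ⟨hp, hpj.trans (dvd_prod_of_mem _ (mem_univ j)),
        prod_ne_zero_iff.2 fun j _ => (Tup_pos hS j).ne'⟩
    have hP3 : ∀ (p : ℕ), p.Prime → ∀ j, p ∣ S1 z y (vf F t) j → p ∈ P3 cls (S1 z y (vf F t)) := by
      intro p hp j hpj
      unfold P3
      rw [Nat.mem_primeFactors]
      exact ⟨hp, hpj.trans (dvd_prod_of_mem _ (mem_filter.2 ⟨mem_univ j, rfl⟩)),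
          prod_ne_zero_iff.2 fun j _ => (Tup_pos hS j).ne'⟩
    set N := symmDiff (negP cls F (fun _ => 1) t (S1 z y (vf F t))) (N0 (S1 z y (vf F t)) t) with hN
    have hmneg : ∀ (p : ℕ), p.Prime → ∀ j, p ∣ S1 z y (vf F t) j →
        (p ∈ negP cls F (fun _ => 1) t (S1 z y (vf F t)) ↔
          jacobiSym ((F j).eval t / p) p = -1) := by
      intro p hp j hpj
      unfold negP
      rw [mem_filter]
      constructor
      · rintro ⟨_, j', _, hj', h⟩
        rw [huniq p hp j j' hpj hj', eval_one, one_mul] at h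
        exact h
      · intro h
        exact ⟨hP3 p hp j hpj, j, rfl, hpj, by rw [eval_one, one_mul]; exact h⟩
    have hmN0 : ∀ (p : ℕ), p.Prime → ∀ j, p ∣ S1 z y (vf F t) j →
        (p ∈ N0 (S1 z y (vf F t)) t ↔ base j p t = true) := by
      intro p hp j hpj
      rw [hN0]
      dsimp only
      rw [mem_filter]
      constructor
      · rintro ⟨_, j', hj', h⟩
        rw [huniq p hp j j' hpj hj'] at h
        exact h
      · intro h
        exact ⟨hP3 p hp j hpj, j, hpj, h⟩
    have hmem : ∀ (p : ℕ), p.Prime → ∀ j, p ∣ S1 z y (vf F t) j → ∀ i,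
        (p ∈ nF cls κ (S1 z y (vf F t)) t N i ↔
          (jacobiSym ((κ j i).eval t) p = -1 ↔ p ∉ N)) := by
      intro p hp j hpj i
      unfold nF
      rw [mem_filter]
      constructor
      · rintro ⟨_, j', hj', h⟩
        rw [huniq p hp j j' hpj hj'] at h
        rcases h with h | h
        · exact absurd rfl h.1
        · exact h.2
      · intro h
        exact ⟨hQ0 p hp j hpj, j, hpj, Or.inr ⟨rfl, h⟩⟩
    set Ee := nF cls κ (S1 z y (vf F t)) t N with hEe
    have hcop : ∀ p : ℕ, p.Prime → z < p → (p : ℤ) ∣ b.eval t * (a.eval t ^ 2 - 4 * b.eval t) →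
        ∃ j, (p : ℤ) ∣ vf F t j := by
      intro p hp hzp hpd
      rw [← hev] at hpd
      obtain ⟨f, hf, hpf⟩ := exists_SP hab t p hp (fun f hf => by
        have e1 : (f.coeff 0).natAbs ≤
            ∑ f ∈ (normalizedFactors Dp).toFinset, (f.coeff 0).natAbs :=
          single_le_sum (f := fun f : ℤ[X] => (f.coeff 0).natAbs) (fun _ _ => Nat.zero_le _)
            (Multiset.mem_toFinset.2 hf)
        omega) hpd
      exact ⟨⟨f, hf⟩, hpf⟩
    have hDt : b.eval t * (a.eval t ^ 2 - 4 * b.eval t) ≠ 0 := (hne t).2 hGd.1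
    have hL : ∀ j (p : ℕ), p.Prime → p ∣ S1 z y (vf F t) j → ∃ _ : Fact p.Prime,
        Loc p (a.eval t) (b.eval t) (cr cc j (fun i => decide (p ∈ Ee i)))
          (cr rr j (fun i => decide (p ∈ Ee i))) (decide (p ∈ Ee 0)) := by
      intro j p hp hpj
      haveI : Fact p.Prime := ⟨hp⟩
      refine ⟨⟨hp⟩, ?_⟩
      have hS1 := (Pool.Agent.W571.RT.S1_dvd_iff hp).1 hpj
      have hzp := (mem_PS.1 hS1.1).1.1
      have hd1 : (p : ℤ) ∣ (F j).eval t := hS1.2.1
      have hd2 : ¬ (p : ℤ) ^ 2 ∣ (F j).eval t := hS1.2.2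
      have e0 : zj j ≤ ∑ j, zj j := le_sum_nat (fun j => zj j) j
      have h3 := hloc j p t (by omega) hd1 hd2 (by
        have := hev t
        rw [hDp] at this
        rw [this]
        exact hDt)
      have hk1 : ∀ i, ¬ (p : ℤ) ∣ (κ j i).eval t := by
        intro i
        have e1 : Bn j i ≤ ∑ i, Bn j i := le_sum_nat (fun i => Bn j i) i
        have e2 : ∑ i, Bn j i ≤ ∑ j, ∑ i, Bn j i := le_sum_nat (fun j => ∑ i, Bn j i) j
        exact hBn j i p (by omega) t hd1
      have hk2 : ¬ (p : ℤ) ∣ (F j).eval t / p := by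
        rintro ⟨q, hq⟩
        apply hd2
        refine ⟨q, ?_⟩
        rw [← Int.mul_ediv_cancel' hd1, hq]
        ring
      have hp1 : p ≠ 1 := hp.one_lt.ne'
      -- the sign
      have hE0 : p ∈ Ee 0 ↔ p ∈ N := by
        rw [hEe, hmem p hp j hpj 0]
        have e1 : κ j 0 = 1 := by
          rw [hκd]
          unfold kk
          rw [if_pos rfl]
        rw [e1, eval_one]
        have e2 : jacobiSym 1 p = 1 := jacobiSym.one_left p
        rw [e2]
        constructor
        · intro h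
          by_contra h5
          have := h.2 h5
          norm_num at this
        · intro h
          constructor
          · intro h5
            norm_num at h5
          · intro h5
            exact absurd h h5
      have hsg : decide (p ∈ Ee 0) = xor (base j p t) (!sq p ((F j).eval t / p)) := by
        have e1 : p ∈ N ↔ (¬ (p ∈ negP cls F (fun _ => 1) t (S1 z y (vf F t)) ↔
            p ∈ N0 (S1 z y (vf F t)) t)) := by
          rw [hN, mem_symmDiff]
          tauto
        exact dec_sign (hE0.trans e1) (hmneg p hp j hpj) (hmN0 p hp j hpj) (jac_pm hp hk2)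
      have hkp : ∀ i : Fin 3, sq p ((κ j i).eval t) =
          !(xor (decide (p ∈ Ee 0)) (decide (p ∈ Ee i))) := by
        intro i
        have e1 : p ∈ Ee i ↔ (jacobiSym ((κ j i).eval t) p = -1 ↔ p ∉ N) := by
          rw [hEe]
          exact hmem p hp j hpj i
        exact dec_kp hE0 e1 (jac_pm hp (hk1 i))
      have hκ1 : κ j 1 = K1 j := by
        rw [hκd]
        unfold kk
        simp
      have hκ2 : κ j 2 = K2 j := by
        rw [hκd]
        unfold kk
        simp
      have hc1 : cr cc j (fun i => decide (p ∈ Ee i)) = rl (R1 j) p ((K1 j).eval t) := by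
        unfold cr kp rl
        rw [hcc, ← hκ1, hkp 1]
        rfl
      have hc2 : cr rr j (fun i => decide (p ∈ Ee i)) = rl (R2 j) p ((K2 j).eval t) := by
        unfold cr kp rl
        rw [hrr, ← hκ2, hkp 2]
        rfl
      rw [hc1, hc2, hsg]
      exact h3
    have h3 := hRK J (a.eval t) (b.eval t) (vf F t) z y X k' d (cr cc) (cr rr) Ee (by omega) hGd
      (mul_ne_zero_iff.1 hDt).1 (mul_ne_zero_iff.1 hDt).2 hcop hx hX hy hk' hL
    have h6 := pow_le_pow_left₀ (Real.rpow_nonneg (by norm_num) _) h3 k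
    refine h6.trans (le_of_eq ?_)
    exact Pool.Agent.L7h19.IK.pow_aux _ _ _ _ _ _ _
  have hMaj : ∀ c : ℕ, ∃ z0 : ℕ, ∀ z, z0 ≤ z → ∃ C : ℝ, ∀ y, z < y →
      ∑ s ∈ Tup J z y, RSum cls F κ Ψ s * ∏ j, gw 1 c (s j) ≤
        C * (Real.log y) ^ (Fintype.card J) := by
    intro c
    obtain ⟨z0, h0⟩ := avgE hBW hFr hEx hWD hWJ hLA F K1 K2 hirr hdeg hK1 hK2 cc rr k c
    refine ⟨z0 + c + 2, fun z hz => ?_⟩
    obtain ⟨C, hC⟩ := h0 z (by omega)
    refine ⟨C, fun y hy => ?_⟩
    refine le_trans (le_of_eq ?_) (hC y hy)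
    refine sum_congr rfl fun s hs => ?_
    exact hCR J cls F κ c z y (by omega) (by omega) s hs Ψ
  obtain ⟨C, hC0, hC⟩ := finF hGR hg1 cls κ F Ψ N0 hN1 hN2 R hirr hdeg hnd hΨ0 hΨ hR0 hRB hMaj ε hε
  refine ⟨C, hC0, fun X u v hX hu hv huv => ?_⟩
  have hfil : (Icc u v).filter
      (fun t : ℤ => b.eval t * (a.eval t ^ 2 - 4 * b.eval t) ≠ 0) =
      (Icc u v).filter (fun t : ℤ => ∀ j, vf F t j ≠ 0) := filter_congr fun t _ => hne t
  rw [hfil]
  refine le_trans (le_of_eq ?_) (hC X u v hX hu hv huv)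
  refine sum_congr rfl fun t ht => ?_
  exact (if_pos (mem_filter.1 ht).2).symm

end Pool.Agent.L7h19.EA
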