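import Mathlib
import Pool.Agent.L7h19.EA.Stm2

/-!
# Project EA: balanced families (all moments of `2 ^ rank`)
-/

set_option autoImplicit false

namespace Pool.Agent.L7h19.EA

open Finset Polynomial Pool.Agent.W262.RK Pool.Agent.W307.RT Pool.Agent.L7h19.RP Pool.Agent.L7h19.IS
open Pool.Agent.L7h19.IT

/-- **S_DLB**: if no prime of the `S1 z y x j` is unbalanced, then `dl` is small: the other primes
dividing `b (a² - 4 b)` are `≤ z`, or `> y` (at most `k D` for every `j`), or divide some `S2 z y x j` (compare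
the proof of `S_RKE`). -/
def S_DLB : Prop := ∀ (J : Type) [Fintype J] [DecidableEq J] (a b : ℤ) (x : J → ℤ)
  (z y X k D : ℕ), 2 ≤ z → Gd z x → b ≠ 0 → a ^ 2 - 4 * b ≠ 0 →
  (∀ p : ℕ, p.Prime → z < p → (p : ℤ) ∣ b * (a ^ 2 - 4 * b) → ∃ j, (p : ℤ) ∣ x j) →
  (∀ j, (x j).natAbs ≤ X ^ D) → 1 ≤ X → 1 ≤ y → X < (y + 1) ^ k →
  (∀ j (p : ℕ), p.Prime → p ∣ S1 z y x j → (OddAt p a b ↔ OddAt p (-2 * a) (a ^ 2 - 4 * b))) →
  |dl a b| ≤ (((z + 2) + D * Fintype.card J * k + ∑ j, (S2 z y x j).primeFactors.card : ℕ) : ℝ)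

/-- the family is balanced at the factor `f` -/
def BalF (a b f : ℤ[X]) : Prop := ∃ z0 : ℕ, ∀ (p : ℕ) [Fact p.Prime] (t : ℤ), z0 < p →
  (p : ℤ) ∣ f.eval t → ¬ (p : ℤ) ^ 2 ∣ f.eval t → (b * (a ^ 2 - 4 * b)).eval t ≠ 0 →
  (OddAt p (a.eval t) (b.eval t) ↔ OddAt p (-2 * a.eval t) (a.eval t ^ 2 - 4 * b.eval t))

/-- **S_ZB** (may assume `S_TOR`, `S_SCL`, `S_N3`): `y² = x³ + b(t) x`. `b = f ^ m b'`, `f ∤ b'`, `v_p(b(t)) = m` for `p`
large, `p ∥ f(t)`. `m` odd: both sides are true (`S_TOR`, the class of `b`, `-4 b` has odd valuation); `m = 4 i`: both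
are false (`S_N3` and the scaling with `p ^ i` or `f(t) ^ i`, `S_SCL`). -/
def S_ZB : Prop := ∀ b f : ℤ[X], b ≠ 0 → Irreducible f → 0 < f.natDegree →
  (∀ m : ℕ, f ^ m ∣ b → ¬ f ^ (m + 1) ∣ b → m % 4 ≠ 2) → BalF 0 b f

/-- **S_TW** (may assume `S_TOR`, `S_SCL`, `S_N3`, `S_N6`): quadratic twists `y² = x (x² + A D(t) x + B D(t)²)`.
`D = f ^ m D'`. `m` even: good reduction after scaling, both sides are false; `m` odd: after scaling `S_N6` for the
curve and the dual curve: the left side is `sq p (C D''²)`, the right side `sq p (16 B D''²)`, `C = A² - 4 B`,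
and `B C` is a square. -/
def S_TW : Prop := ∀ (A B : ℤ) (D f : ℤ[X]), B * (A ^ 2 - 4 * B) ≠ 0 → IsSquare (B * (A ^ 2 - 4 * B)) →
  D ≠ 0 → Irreducible f → 0 < f.natDegree → BalF (C A * D) (C B * D ^ 2) f

end Pool.Agent.L7h19.EA
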