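import Mathlib
import Pool.Agent.L7h19.EA.Abs
import Pool.Agent.L7h19.EA.Stm3

/-!
# Project EA: balanced families: all moments of `2 ^ rank`, abstract form
-/

set_option autoImplicit false
set_option linter.unusedSectionVars false

namespace Pool.Agent.L7h19.EA

open Finset Polynomial Pool.Agent.W262.RK Pool.Agent.W307.RT Pool.Agent.L7h19.RP
open Pool.Agent.L7h19.IS Pool.Agent.L7h19.IT UniqueFactorizationMonoid
open Pool.Agent.L7h19.RH (Q0)
open Pool.Agent.L7h19.IK (S_LA)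
open Pool.Agent.L7h19.FD (Pat WE avE WSym WP WHyp S_WHD nF RSum S_GRD S_CRD)

lemma two_pow_aux (r d : ℝ) (n a b k c : ℕ) (G : ℝ) (hG : 0 ≤ G) (hd : d ≤ (n : ℝ))
    (hn : n = a + b * k + c) (h : (2 : ℝ) ^ (r - d) ≤ 64 ^ a * (64 ^ b) ^ k * 64 ^ c * G) :
    (2 : ℝ) ^ r ≤ 128 ^ a * (128 ^ b) ^ k * 128 ^ c * G := by
  have h1 : (2 : ℝ) ^ r = (2 : ℝ) ^ (r - d) * (2 : ℝ) ^ d := by
    rw [← Real.rpow_add (by norm_num)]
    congr 1
    ring
  have h2 : (2 : ℝ) ^ d ≤ 2 ^ n := by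
    rw [← Real.rpow_natCast]
    exact Real.rpow_le_rpow_of_exponent_le (by norm_num) hd
  rw [h1]
  calc _ ≤ (64 ^ a * (64 ^ b) ^ k * 64 ^ c * G) * 2 ^ n :=
        mul_le_mul h h2 (Real.rpow_nonneg (by norm_num) _) (by positivity)
    _ = _ := by
        have e : (128 : ℝ) = 64 * 2 := by norm_num
        rw [e, hn, mul_pow, mul_pow, mul_pow, mul_pow, pow_add, pow_add, pow_mul]
        ring

open Classical in
/-- **all moments, abstract form** -/
theorem absB (hDL : S_DLB) (hRK : S_RKE) (hGF : S_GFE) (hGR : S_GRD) (hCR : S_CRD) (hEx : S_EXE) (hWD : S_WHD)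
    (hWJ : S_WHJ) (hLA : S_LA) (hPol : S_POL) (hBW : StBW) (hFr : StFree)
    (a b : ℤ[X]) (hab : b * (a ^ 2 - 4 * b) ≠ 0) (hbal : ∀ f : ℤ[X], Irreducible f →
      0 < f.natDegree → f ∣ b * (a ^ 2 - 4 * b) → BalF a b f) (k : ℕ) (ε : ℝ) (hε : 0 < ε) :
    ∃ C : ℝ, 0 ≤ C ∧ ∀ (X : ℕ) (u v : ℤ), 1 ≤ X → u.natAbs ≤ X → v.natAbs ≤ X →
      (X : ℝ) ^ ε ≤ (v : ℝ) - u →
      ∑ t ∈ (Icc u v).filter (fun t : ℤ => b.eval t * (a.eval t ^ 2 - 4 * b.eval t) ≠ 0),
        ((2 : ℝ) ^ ((Module.finrank ℤ (EI (a.eval t) (b.eval t)).toAffine.Point : ℕ) : ℝ)) ^ k ≤ C * ((v : ℝ) - u) := by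
  set Dp : ℤ[X] := b * (a ^ 2 - 4 * b) with hDp
  set J : Type := {f : ℤ[X] // f ∈ SP Dp} with hJ
  set F : J → ℤ[X] := fun j => j.1 with hF
  have hirr : ∀ j, Irreducible (F j) := fun j =>
    irreducible_of_normalized_factor _ (mem_SP.1 j.2).1
  have hdeg : ∀ j, 0 < (F j).natDegree := fun j => (mem_SP.1 j.2).2
  have hnd : ∀ j l, j ≠ l → ¬ F j ∣ F l := fun j l hjl =>
    SP_nd j.2 l.2 (fun h1 => hjl (Subtype.ext h1))
  have hev : ∀ t : ℤ, Dp.eval t = b.eval t * (a.eval t ^ 2 - 4 * b.eval t) := by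
    intro t
    rw [hDp]
    simp
  have hne : ∀ t : ℤ, b.eval t * (a.eval t ^ 2 - 4 * b.eval t) ≠ 0 ↔ ∀ j, vf F t j ≠ 0 := by
    intro t
    rw [← hev, eval_ne hab]
    constructor
    · intro h j
      exact h j.1 j.2
    · intro h f hf
      exact h ⟨f, hf⟩
  choose zb hzb using fun j : J => hbal (F j) (hirr j) (hdeg j)
    (dvd_of_mem_normalizedFactors (mem_SP.1 j.2).1)
  choose R1 R2 K1 K2 base zj hK1 hK2 hbase hloc using fun j : J => hPol a b (F j) hab (hirr j) (hdeg j)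
  set cc : J → Bool × Bool → Bool := fun j κ => rule (R1 j) κ.1 with hcc
  set rr : J → Bool × Bool → Bool := fun j κ => rule (R2 j) κ.2 with hrr
  set cls : J → Fin 4 := fun _ => 3 with hcls
  set κ : J → Fin 3 → ℤ[X] := kk K1 K2 with hκd
  set Ψ : (J → ℕ) → (Fin 3 → Finset ℕ) → ℝ := PsE k cc rr with hΨd
  set N0 : (J → ℕ) → ℤ → Finset ℕ := fun s t =>
    (P3 cls s).filter (fun p => ∃ j, p ∣ s j ∧ base j p t = true) with hN0
  set g : ℝ := 128 ^ k with hg
  have hg1 : 1 ≤ g := one_le_pow₀ (by norm_num)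
  have hκ : ∀ j i, ¬ F j ∣ κ j i := by
    intro j i
    rw [hκd]
    unfold kk
    split_ifs
    · intro h
      exact (hirr j).not_isUnit (isUnit_of_dvd_one h)
    · exact hK1 j
    · exact hK2 j
  have hN1 : ∀ (s : J → ℕ) (t t' : ℤ), (∀ j, t ≡ t' [ZMOD (s j)]) → N0 s t = N0 s t' := by
    intro s t t' h
    rw [hN0]
    refine filter_congr fun p _ => ?_
    refine exists_congr fun j => and_congr_right fun hpj => ?_
    rw [hbase j p t t' ((h j).of_dvd (Int.natCast_dvd_natCast.2 hpj))]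
  have hN2 : ∀ s t, N0 s t ⊆ P3 cls s := fun s t => filter_subset _ _
  set E : ℤ → ℝ := fun t => (Module.finrank ℤ (EI (a.eval t) (b.eval t)).toAffine.Point : ℕ) with hE
  set R : ℤ → ℝ := fun t => if ∀ j, vf F t j ≠ 0 then ((2 : ℝ) ^ (E t)) ^ k else 0 with hRd
  have hR0 : ∀ t, 0 ≤ R t := fun t => by
    rw [hRd]
    dsimp only
    split_ifs
    · exact pow_nonneg (Real.rpow_nonneg (by norm_num) _) _
    · exact le_rfl
  have hΨ0 : ∀ s E, 0 ≤ Ψ s E := fun s E => PsE_nonneg _ _ _ _ _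
  have hΨ : ∀ (z y : ℕ) (s e : J → ℕ) (E : Fin 3 → Finset ℕ), 2 ≤ z →
      (fun j => s j * e j) ∈ Tup J z y →
      Ψ s E = Ψ s (fun i => E i ∩ Q0 s) ∧
      Ψ (fun j => s j * e j) E ≤ g ^ (∑ j, (e j).primeFactors.card) * Ψ s E := by
    intro z y s e E hz hse
    obtain ⟨h1, h2⟩ := hGF J (cr cc) (cr rr) z y s e E hz hse
    refine ⟨?_, ?_⟩
    · rw [hΨd]
      unfold PsE
      rw [h1]
    · rw [hΨd]
      unfold PsE
      calc G3 (E 0) (cpr (cr cc) (fun j => s j * e j) E) (cpr (cr rr) (fun j => s j * e j) E) ^ k ≤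
            (64 ^ (∑ j, (e j).primeFactors.card) *
              G3 (E 0) (cpr (cr cc) s E) (cpr (cr rr) s E)) ^ k :=
            pow_le_pow_left₀ (G3_nonneg _ _ _) h2 k
        _ = (64 ^ k) ^ (∑ j, (e j).primeFactors.card) *
              G3 (E 0) (cpr (cr cc) s E) (cpr (cr rr) s E) ^ k := by
            rw [mul_pow, ← pow_mul, ← pow_mul, mul_comm k]
        _ ≤ _ := by
            refine mul_le_mul_of_nonneg_right (pow_le_pow_left₀ (by positivity) ?_ _)
              (pow_nonneg (G3_nonneg _ _ _) _)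
            exact pow_le_pow_left₀ (by norm_num) (by norm_num) k
  choose Bn hBn using fun (j : J) (i : Fin 3) => large_nd (hirr j) (hdeg j) (hκ j i)
  have hRB : RBF g cls κ F Ψ N0 R := by
    refine ⟨(∑ f ∈ (normalizedFactors Dp).toFinset, (f.coeff 0).natAbs) + ∑ j, zj j +
      ∑ j, zb j + ∑ j, ∑ i, Bn j i + 2, fun z hz t y X k' d hGd hx hX hy hk' => ?_⟩
    have h1 : R t = ((2 : ℝ) ^ (E t)) ^ k := if_pos hGd.1
    rw [h1]
    have hS : S1 z y (vf F t) ∈ Tup J z y := Pool.Agent.W45.RT.S1_mem hGd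
    have huniq : ∀ (p : ℕ), p.Prime → ∀ j j', p ∣ S1 z y (vf F t) j → p ∣ S1 z y (vf F t) j' →
        j' = j := by
      intro p hp j j' hj hj'
      by_contra hne
      have h3 := (mem_Tup'.1 hS).2 j' j hne
      have h4 : p ∣ 1 := by
        rw [← Nat.Coprime.gcd_eq_one h3]
        exact Nat.dvd_gcd hj' hj
      exact hp.one_lt.ne' (Nat.dvd_one.1 h4)
    have hQ0 : ∀ (p : ℕ), p.Prime → ∀ j, p ∣ S1 z y (vf F t) j → p ∈ Q0 (S1 z y (vf F t)) := by
      intro p hp j hpj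
      unfold Q0
      rw [Nat.mem_primeFactors]
      exact ⟨hp, hpj.trans (dvd_prod_of_mem _ (mem_univ j)),
        prod_ne_zero_iff.2 fun j _ => (Tup_pos hS j).ne'⟩
    have hP3 : ∀ (p : ℕ), p.Prime → ∀ j, p ∣ S1 z y (vf F t) j → p ∈ P3 cls (S1 z y (vf F t)) := by
      intro p hp j hpj
      unfold P3
      rw [Nat.mem_primeFactors]
      exact ⟨hp, hpj.trans (dvd_prod_of_mem _ (mem_filter.2 ⟨mem_univ j, rfl⟩)),
          prod_ne_zero_iff.2 fun j _ => (Tup_pos hS j).ne'⟩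
    set N := symmDiff (negP cls F (fun _ => 1) t (S1 z y (vf F t))) (N0 (S1 z y (vf F t)) t) with hN
    have hmneg : ∀ (p : ℕ), p.Prime → ∀ j, p ∣ S1 z y (vf F t) j →
        (p ∈ negP cls F (fun _ => 1) t (S1 z y (vf F t)) ↔
          jacobiSym ((F j).eval t / p) p = -1) := by
      intro p hp j hpj
      unfold negP
      rw [mem_filter]
      constructor
      · rintro ⟨_, j', _, hj', h⟩
        rw [huniq p hp j j' hpj hj', eval_one, one_mul] at h
        exact h
      · intro h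
        exact ⟨hP3 p hp j hpj, j, rfl, hpj, by rw [eval_one, one_mul]; exact h⟩
    have hmN0 : ∀ (p : ℕ), p.Prime → ∀ j, p ∣ S1 z y (vf F t) j →
        (p ∈ N0 (S1 z y (vf F t)) t ↔ base j p t = true) := by
      intro p hp j hpj
      rw [hN0]
      dsimp only
      rw [mem_filter]
      constructor
      · rintro ⟨_, j', hj', h⟩
        rw [huniq p hp j j' hpj hj'] at h
        exact h
      · intro h
        exact ⟨hP3 p hp j hpj, j, hpj, h⟩
    have hmem : ∀ (p : ℕ), p.Prime → ∀ j, p ∣ S1 z y (vf F t) j → ∀ i,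
        (p ∈ nF cls κ (S1 z y (vf F t)) t N i ↔
          (jacobiSym ((κ j i).eval t) p = -1 ↔ p ∉ N)) := by
      intro p hp j hpj i
      unfold nF
      rw [mem_filter]
      constructor
      · rintro ⟨_, j', hj', h⟩
        rw [huniq p hp j j' hpj hj'] at h
        rcases h with h | h
        · exact absurd rfl h.1
        · exact h.2
      · intro h
        exact ⟨hQ0 p hp j hpj, j, hpj, Or.inr ⟨rfl, h⟩⟩
    set Ee := nF cls κ (S1 z y (vf F t)) t N with hEe
    have hcop : ∀ p : ℕ, p.Prime → z < p → (p : ℤ) ∣ b.eval t * (a.eval t ^ 2 - 4 * b.eval t) →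
        ∃ j, (p : ℤ) ∣ vf F t j := by
      intro p hp hzp hpd
      rw [← hev] at hpd
      obtain ⟨f, hf, hpf⟩ := exists_SP hab t p hp (fun f hf => by
        have e1 : (f.coeff 0).natAbs ≤
            ∑ f ∈ (normalizedFactors Dp).toFinset, (f.coeff 0).natAbs :=
          single_le_sum (f := fun f : ℤ[X] => (f.coeff 0).natAbs) (fun _ _ => Nat.zero_le _)
            (Multiset.mem_toFinset.2 hf)
        omega) hpd
      exact ⟨⟨f, hf⟩, hpf⟩
    have hDt : b.eval t * (a.eval t ^ 2 - 4 * b.eval t) ≠ 0 := (hne t).2 hGd.1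
    have hL : ∀ j (p : ℕ), p.Prime → p ∣ S1 z y (vf F t) j → ∃ _ : Fact p.Prime,
        Loc p (a.eval t) (b.eval t) (cr cc j (fun i => decide (p ∈ Ee i)))
          (cr rr j (fun i => decide (p ∈ Ee i))) (decide (p ∈ Ee 0)) := by
      intro j p hp hpj
      haveI : Fact p.Prime := ⟨hp⟩
      refine ⟨⟨hp⟩, ?_⟩
      have hS1 := (Pool.Agent.W571.RT.S1_dvd_iff hp).1 hpj
      have hzp := (mem_PS.1 hS1.1).1.1
      have hd1 : (p : ℤ) ∣ (F j).eval t := hS1.2.1
      have hd2 : ¬ (p : ℤ) ^ 2 ∣ (F j).eval t := hS1.2.2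
      have e0 : zj j ≤ ∑ j, zj j := le_sum_nat (fun j => zj j) j
      have h3 := hloc j p t (by omega) hd1 hd2 (by
        have := hev t
        rw [hDp] at this
        rw [this]
        exact hDt)
      have hk1 : ∀ i, ¬ (p : ℤ) ∣ (κ j i).eval t := by
        intro i
        have e1 : Bn j i ≤ ∑ i, Bn j i := le_sum_nat (fun i => Bn j i) i
        have e2 : ∑ i, Bn j i ≤ ∑ j, ∑ i, Bn j i := le_sum_nat (fun j => ∑ i, Bn j i) j
        exact hBn j i p (by omega) t hd1
      have hk2 : ¬ (p : ℤ) ∣ (F j).eval t / p := by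
        rintro ⟨q, hq⟩
        apply hd2
        refine ⟨q, ?_⟩
        rw [← Int.mul_ediv_cancel' hd1, hq]
        ring
      have hp1 : p ≠ 1 := hp.one_lt.ne'
      -- the sign
      have hE0 : p ∈ Ee 0 ↔ p ∈ N := by
        rw [hEe, hmem p hp j hpj 0]
        have e1 : κ j 0 = 1 := by
          rw [hκd]
          unfold kk
          rw [if_pos rfl]
        rw [e1, eval_one]
        have e2 : jacobiSym 1 p = 1 := jacobiSym.one_left p
        rw [e2]
        constructor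
        · intro h
          by_contra h5
          have := h.2 h5
          norm_num at this
        · intro h
          constructor
          · intro h5
            norm_num at h5
          · intro h5
            exact absurd h h5
      have hsg : decide (p ∈ Ee 0) = xor (base j p t) (!sq p ((F j).eval t / p)) := by
        have e1 : p ∈ N ↔ (¬ (p ∈ negP cls F (fun _ => 1) t (S1 z y (vf F t)) ↔
            p ∈ N0 (S1 z y (vf F t)) t)) := by
          rw [hN, mem_symmDiff]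
          tauto
        exact dec_sign (hE0.trans e1) (hmneg p hp j hpj) (hmN0 p hp j hpj) (jac_pm hp hk2)
      have hkp : ∀ i : Fin 3, sq p ((κ j i).eval t) =
          !(xor (decide (p ∈ Ee 0)) (decide (p ∈ Ee i))) := by
        intro i
        have e1 : p ∈ Ee i ↔ (jacobiSym ((κ j i).eval t) p = -1 ↔ p ∉ N) := by
          rw [hEe]
          exact hmem p hp j hpj i
        exact dec_kp hE0 e1 (jac_pm hp (hk1 i))
      have hκ1 : κ j 1 = K1 j := by
        rw [hκd]
        unfold kk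
        simp
      have hκ2 : κ j 2 = K2 j := by
        rw [hκd]
        unfold kk
        simp
      have hc1 : cr cc j (fun i => decide (p ∈ Ee i)) = rl (R1 j) p ((K1 j).eval t) := by
        unfold cr kp rl
        rw [hcc, ← hκ1, hkp 1]
        rfl
      have hc2 : cr rr j (fun i => decide (p ∈ Ee i)) = rl (R2 j) p ((K2 j).eval t) := by
        unfold cr kp rl
        rw [hrr, ← hκ2, hkp 2]
        rfl
      rw [hc1, hc2, hsg]
      exact h3
    have h3 := hRK J (a.eval t) (b.eval t) (vf F t) z y X k' d (cr cc) (cr rr) Ee (by omega) hGd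
      (mul_ne_zero_iff.1 hDt).1 (mul_ne_zero_iff.1 hDt).2 hcop hx hX hy hk' hL
    have hdl := hDL J (a.eval t) (b.eval t) (vf F t) z y X k' d (by omega) hGd
      (mul_ne_zero_iff.1 hDt).1 (mul_ne_zero_iff.1 hDt).2 hcop hx hX hy hk' (fun j p hp hpj => by
        haveI : Fact p.Prime := ⟨hp⟩
        have hS1 := (Pool.Agent.W571.RT.S1_dvd_iff hp).1 hpj
        have hzp := (mem_PS.1 hS1.1).1.1
        have e0 : zb j ≤ ∑ j, zb j := le_sum_nat (fun j => zb j) j
        exact hzb j p t (by omega) hS1.2.1 hS1.2.2 (by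
          have := hev t
          rw [hDp] at this
          rw [this]
          exact hDt))
    have h3' := two_pow_aux _ _ _ (z + 2) (d * Fintype.card J) k'
      (∑ j, (S2 z y (vf F t) j).primeFactors.card) _ (G3_nonneg _ _ _) hdl rfl h3
    have h6 := pow_le_pow_left₀ (Real.rpow_nonneg (by norm_num) _) h3' k
    refine h6.trans (le_of_eq ?_)
    exact Pool.Agent.L7h19.IK.pow_aux _ _ _ _ _ _ _
  have hMaj : ∀ c : ℕ, ∃ z0 : ℕ, ∀ z, z0 ≤ z → ∃ C : ℝ, ∀ y, z < y →
      ∑ s ∈ Tup J z y, RSum cls F κ Ψ s * ∏ j, gw 1 c (s j) ≤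
        C * (Real.log y) ^ (Fintype.card J) := by
    intro c
    obtain ⟨z0, h0⟩ := avgE hBW hFr hEx hWD hWJ hLA F K1 K2 hirr hdeg hK1 hK2 cc rr k c
    refine ⟨z0 + c + 2, fun z hz => ?_⟩
    obtain ⟨C, hC⟩ := h0 z (by omega)
    refine ⟨C, fun y hy => ?_⟩
    refine le_trans (le_of_eq ?_) (hC y hy)
    refine sum_congr rfl fun s hs => ?_
    exact hCR J cls F κ c z y (by omega) (by omega) s hs Ψ
  obtain ⟨C, hC0, hC⟩ := finF hGR hg1 cls κ F Ψ N0 hN1 hN2 R hirr hdeg hnd hΨ0 hΨ hR0 hRB hMaj ε hε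
  refine ⟨C, hC0, fun X u v hX hu hv huv => ?_⟩
  have hfil : (Icc u v).filter
      (fun t : ℤ => b.eval t * (a.eval t ^ 2 - 4 * b.eval t) ≠ 0) =
      (Icc u v).filter (fun t : ℤ => ∀ j, vf F t j ≠ 0) := filter_congr fun t _ => hne t
  rw [hfil]
  refine le_trans (le_of_eq ?_) (hC X u v hX hu hv huv)
  refine sum_congr rfl fun t ht => ?_
  exact (if_pos (mem_filter.1 ht).2).symm

end Pool.Agent.L7h19.EA
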