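import Mathlib
import Pool.Agent.L7h19.EA.Stm3
import Pool.Agent.L7h19.FT.Stm3

/-!
# Project EA: the mean value of `δ(t)`
-/

set_option autoImplicit false

namespace Pool.Agent.L7h19.EA

open Finset Polynomial Pool.Agent.W262.RK Pool.Agent.W307.RT Pool.Agent.L7h19.RP Pool.Agent.L7h19.IS
open Pool.Agent.L7h19.IT Pool.Agent.L7h19.FT

/-- **S_DLC** (adapt `Pool.Agent.L7h69.EA.s_DLB`): `dl` is the sum over the factors of the numbers of the
column primes minus the row primes, up to the small primes (`≤ z`), the large ones and the `S2`. -/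
def S_DLC : Prop := ∀ (J : Type) [Fintype J] [DecidableEq J] (a b : ℤ) (x : J → ℤ)
  (z y X k D : ℕ) (cl rw : J → ℕ → Bool), 2 ≤ z → Gd z x → b ≠ 0 → a ^ 2 - 4 * b ≠ 0 →
  (∀ j, x j ∣ b * (a ^ 2 - 4 * b)) →
  (∀ p : ℕ, p.Prime → z < p → (p : ℤ) ∣ b * (a ^ 2 - 4 * b) → ∃ j, (p : ℤ) ∣ x j) →
  (∀ j, (x j).natAbs ≤ X ^ D) → 1 ≤ X → 1 ≤ y → X < (y + 1) ^ k →
  (∀ j (p : ℕ), p.Prime → p ∣ S1 z y x j → (OddAt p a b ↔ cl j p = true) ∧
    (OddAt p (-2 * a) (a ^ 2 - 4 * b) ↔ rw j p = true)) →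
  |dl a b - ∑ j, ((((x j).natAbs.primeFactors.filter (fun p => cl j p = true)).card : ℝ) -
      (((x j).natAbs.primeFactors.filter (fun p => rw j p = true)).card : ℝ))| ≤
    ((4 * (Fintype.card J + 1) * (z + 2) + 4 * (D * Fintype.card J) * k +
      4 * ∑ j, (S2 z y x j).primeFactors.card : ℕ) : ℝ)

/-- **S_NAV** (from `S_TK`, `Pool.Agent.L7h60.IS.s_TK`, and `S_TKV`, `Pool.Agent.L7h19.FD.tkv0`, by Cauchy-Schwarz):
the mean value of the number of the primes `p ∣ f(t)` which satisfy a rule; `m = 2` for `some true`, `0` for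
`some false`, and `2` or `1` for `none` if `K` is a square modulo `f` or not. -/
def S_NAV : Prop := ∀ (f K : ℤ[X]) (R : Option Bool), Irreducible f → 0 < f.natDegree → ¬ f ∣ K →
  ∃ m : ℤ, ∀ ε : ℝ, 0 < ε → ∃ C : ℝ, ∀ (X : ℕ) (u v : ℤ), 3 ≤ X → u.natAbs ≤ X → v.natAbs ≤ X →
    (X : ℝ) ^ ε ≤ (v : ℝ) - u →
    ∑ t ∈ (Icc u v).filter (fun t : ℤ => f.eval t ≠ 0),
      |(((f.eval t).natAbs.primeFactors.filter (fun p => rl R p (K.eval t) = true)).card : ℝ) -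
        (m : ℝ) / 2 * Real.log (Real.log X)| ≤
      C * ((v : ℝ) - u) * √(Real.log (Real.log X))

end Pool.Agent.L7h19.EA
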