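import Mathlib
import Pool.Agent.L7h19.EA.Stm4
import Pool.Agent.L7h69.EA.Rke
import Pool.Agent.W571.RT.Rank2

/-! Project EA: `dl` is the sum over the factors, `S_DLC`. -/

set_option autoImplicit false
set_option linter.unusedSectionVars false
set_option maxHeartbeats 1000000

namespace Pool.Agent.L7h19.EA

open Finset Polynomial Pool.Agent.W262.RK Pool.Agent.W307.RT Pool.Agent.L7h19.RP
open Pool.Agent.L7h19.IS Pool.Agent.L7h19.IT Pool.Agent.L7h69.EA

lemma ite_diff (P Q : Prop) [Decidable P] [Decidable Q] :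
    |((if P then (1 : ℝ) else 0) - (if Q then 1 else 0))| ≤ 1 := by
  split_ifs <;> norm_num

theorem s_DLC : S_DLC := by
  intro J _ _ a b x z y X k D cl rw1 hz2 hG hb0 hc0 hdv hprim hb hX hy hk heq
  classical
  set M : ℤ := b * (a ^ 2 - 4 * b) with hM
  have hM0 : M ≠ 0 := mul_ne_zero hb0 hc0
  set Qs := M.natAbs.primeFactors with hQs
  have hB := bad (M := M) (y := y) hG hprim hy hb hk
  have hsub : ∀ j, (x j).natAbs.primeFactors ⊆ Qs := fun j =>
    Nat.primeFactors_mono (Int.natAbs_dvd_natAbs.2 (hdv j)) (Int.natAbs_ne_zero.2 hM0)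
  have hcard : ∀ (S : Finset ℕ) (P : ℕ → Prop) [DecidablePred P],
      ((S.filter P).card : ℝ) = ∑ q ∈ S, (if P q then (1 : ℝ) else 0) := by
    intro S P _
    rw [card_filter]
    push_cast
    rfl
  have hcj : ∀ (j : J) (P : ℕ → Prop) [DecidablePred P],
      (((x j).natAbs.primeFactors.filter P).card : ℝ) =
      ∑ q ∈ Qs, (if (q ∈ (x j).natAbs.primeFactors ∧ P q) then (1 : ℝ) else 0) := by
    intro j P _
    rw [← hcard]
    congr 2
    ext q
    rw [mem_filter, mem_filter]
    constructor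
    · rintro ⟨h1, h2⟩
      exact ⟨hsub j h1, h1, h2⟩
    · rintro ⟨_, h⟩
      exact h
  set w : J → ℕ → ℝ := fun j q =>
    (if (q ∈ (x j).natAbs.primeFactors ∧ cl j q = true) then (1 : ℝ) else 0) -
    (if (q ∈ (x j).natAbs.primeFactors ∧ rw1 j q = true) then (1 : ℝ) else 0) with hw
  set o : ℕ → ℝ := fun q => (if OddAt q a b then (1 : ℝ) else 0) -
    (if OddAt q (-2 * a) (a ^ 2 - 4 * b) then (1 : ℝ) else 0) with ho
  have h1 : dl a b - ∑ j, ((((x j).natAbs.primeFactors.filter (fun p => cl j p = true)).card : ℝ) -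
      (((x j).natAbs.primeFactors.filter (fun p => rw1 j p = true)).card : ℝ)) =
      ∑ q ∈ Qs, (o q - ∑ j, w j q) := by
    have hR : ∑ q ∈ Qs, (o q - ∑ j, w j q) = ∑ q ∈ Qs, o q - ∑ j, ∑ q ∈ Qs, w j q := by
      rw [sum_sub_distrib]
      congr 1
      exact sum_comm
    rw [hR]
    congr 1
    · unfold dl
      rw [hcard, hcard, ← sum_sub_distrib]
    · refine sum_congr rfl fun j _ => ?_
      rw [hcj, hcj, ← sum_sub_distrib]
  rw [h1]
  have hw1 : ∀ j q, |w j q| ≤ 1 := fun j q => ite_diff _ _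
  have ho1 : ∀ q, |o q| ≤ 1 := fun q => ite_diff _ _
  have h2 : ∀ q ∈ Qs, |o q - ∑ j, w j q| ≤ (if q ∉ PP z y x then (2 : ℝ) else 0) +
      (if q ≤ z then ((Fintype.card J : ℝ) + 1) else 0) := by
    intro q hq
    have hqp := Nat.prime_of_mem_primeFactors hq
    rcases Nat.lt_or_ge z q with hzq | hzq
    · rw [if_neg (not_le.2 hzq), add_zero]
      obtain ⟨l, hl⟩ := hprim q hqp hzq (Int.natCast_dvd.2 (Nat.dvd_of_mem_primeFactors hq))
      have huniq : ∀ j, j ≠ l → w j q = 0 := by
        intro j hjl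
        have h3 : q ∉ (x j).natAbs.primeFactors := by
          intro h4
          exact hG.2 q hqp hzq j l hjl ⟨Int.natCast_dvd.2 (Nat.dvd_of_mem_primeFactors h4), hl⟩
        rw [hw]
        dsimp only
        rw [if_neg (fun h => h3 h.1), if_neg (fun h => h3 h.1), sub_zero]
      have hsum : ∑ j, w j q = w l q := by
        rw [sum_eq_single l (fun j _ hj => huniq j hj) (fun h => absurd (mem_univ _) h)]
      rw [hsum]
      by_cases hPP : q ∈ PP z y x
      · rw [if_neg (fun h => h hPP)]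
        obtain ⟨_, l', hl'⟩ := mem_PP.1 hPP
        have h3 := (Pool.Agent.W571.RT.S1_dvd_iff hqp).1 hl'
        have hll : l' = l := by
          by_contra hne
          exact hG.2 q hqp hzq l' l hne ⟨h3.2.1, hl⟩
        rw [hll] at hl'
        obtain ⟨e1, e2⟩ := heq l q hqp hl'
        have e3 : q ∈ (x l).natAbs.primeFactors := Nat.mem_primeFactors.2
          ⟨hqp, Int.natCast_dvd.1 hl, Int.natAbs_ne_zero.2 (hG.1 l)⟩
        have e4 : o q = w l q := by
          rw [ho, hw]
          dsimp only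
          congr 1
          · exact if_congr (e1.trans ⟨fun h => ⟨e3, h⟩, fun h => h.2⟩) rfl rfl
          · exact if_congr (e2.trans ⟨fun h => ⟨e3, h⟩, fun h => h.2⟩) rfl rfl
        rw [e4, sub_self, abs_zero]
      · rw [if_pos hPP]
        refine (abs_sub _ _).trans ?_
        have := hw1 l q
        have := ho1 q
        linarith
    · rw [if_pos hzq]
      have e1 : |∑ j, w j q| ≤ (Fintype.card J : ℝ) := by
        refine (abs_sum_le_sum_abs _ _).trans ((sum_le_sum fun j _ => hw1 j q).trans ?_)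
        rw [sum_const, card_univ, nsmul_eq_mul, mul_one]
      have e2 := ho1 q
      have e3 : (0 : ℝ) ≤ if q ∉ PP z y x then (2 : ℝ) else 0 := by split_ifs <;> norm_num
      refine (abs_sub _ _).trans ?_
      linarith
  refine (abs_sum_le_sum_abs _ _).trans ((sum_le_sum h2).trans ?_)
  rw [sum_add_distrib, ← sum_filter, ← sum_filter, sum_const, sum_const, nsmul_eq_mul, nsmul_eq_mul]
  have h5 : ((Qs.filter (fun q => q ≤ z)).card : ℝ) ≤ z := by
    have : (Qs.filter (fun q => q ≤ z)).card ≤ (Icc 1 z).card := by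
      refine card_le_card fun q hq => ?_
      rw [mem_filter] at hq
      exact mem_Icc.2 ⟨(Nat.prime_of_mem_primeFactors hq.1).one_lt.le, hq.2⟩
    rw [Nat.card_Icc] at this
    exact_mod_cast (by omega : (Qs.filter (fun q => q ≤ z)).card ≤ z)
  have h6 : ((Qs.filter (fun q => q ∉ PP z y x)).card : ℝ) ≤
      ((z + Fintype.card J * (D * k) + ∑ j, (S2 z y x j).primeFactors.card : ℕ) : ℝ) := by
    exact_mod_cast hB
  push_cast at h6 ⊢
  have n1 : (0 : ℝ) ≤ Fintype.card J := Nat.cast_nonneg _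
  have n2 : (0 : ℝ) ≤ z := Nat.cast_nonneg _
  have n3 : (0 : ℝ) ≤ ∑ j, (((S2 z y x j).primeFactors.card : ℕ) : ℝ) :=
    sum_nonneg fun _ _ => Nat.cast_nonneg _
  have n4 : (0 : ℝ) ≤ (D : ℝ) * Fintype.card J * k := by positivity
  have n5 : (0 : ℝ) ≤ (Fintype.card J : ℝ) * z := mul_nonneg n1 n2
  have h7 : ((Qs.filter (fun q => q ≤ z)).card : ℝ) * ((Fintype.card J : ℝ) + 1) ≤
      z * ((Fintype.card J : ℝ) + 1) := mul_le_mul_of_nonneg_right h5 (by linarith)
  have h8 : (Fintype.card J : ℝ) * (D * k) = D * Fintype.card J * k := by ring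
  rw [h8] at h6
  nlinarith

end Pool.Agent.L7h19.EA
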