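import Mathlib
import Pool.Agent.L7h19.EA.Abs
import Pool.Agent.L7h19.EA.Stm4

/-!
# Project EA: the mean value of `δ(t)`
-/

set_option autoImplicit false
set_option linter.unusedSectionVars false
set_option maxHeartbeats 1000000

namespace Pool.Agent.L7h19.EA

open Finset Polynomial Pool.Agent.W262.RK Pool.Agent.W307.RT Pool.Agent.L7h19.RP
open Pool.Agent.L7h19.IS Pool.Agent.L7h19.IT UniqueFactorizationMonoid
open Pool.Agent.L7h19.RH (Q0)
open Pool.Agent.L7h19.IK (S_LA)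
open Pool.Agent.L7h19.FD (Pat WE avE WSym WP WHyp S_WHD nF RSum S_GRD S_CRD)

/-- exponential moments of a function which is bounded by the number of the exceptional primes -/
theorem expF {J : Type} [Fintype J] [DecidableEq J] (hGR : S_GRD) (hCR : S_CRD) (hEx : S_EXE)
    (hWD : S_WHD) (hWJ : S_WHJ) (hLA : S_LA) (hBW : StBW) (hFr : StFree)
    (f : J → ℤ[X]) (hf : ∀ j, Irreducible (f j)) (hd : ∀ j, 0 < (f j).natDegree)
    (hnd : ∀ j l, j ≠ l → ¬ f j ∣ f l) (A : ℕ) (Q : ℤ → ℝ)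
    (hQ : ∃ z1 : ℕ, ∀ z, z1 ≤ z → ∀ (t : ℤ) (y X k D : ℕ), Gd z (vf f t) →
      (∀ j, (vf f t j).natAbs ≤ X ^ D) → 1 ≤ X → 1 ≤ y → X < (y + 1) ^ k →
      Q t ≤ ((A * (z + 2) + A * (D * Fintype.card J) * k +
        A * ∑ j, (S2 z y (vf f t) j).primeFactors.card : ℕ) : ℝ)) (ε : ℝ) (hε : 0 < ε) :
    ∃ C : ℝ, 0 ≤ C ∧ ∀ (X : ℕ) (u v : ℤ), 1 ≤ X → u.natAbs ≤ X → v.natAbs ≤ X →
      (X : ℝ) ^ ε ≤ (v : ℝ) - u →
      ∑ t ∈ (Icc u v).filter (fun t : ℤ => ∀ j, vf f t j ≠ 0), (2 : ℝ) ^ (Q t) ≤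
        C * ((v : ℝ) - u) := by
  classical
  set K : J → ℤ[X] := fun _ => 1 with hK
  have hK1 : ∀ j, ¬ f j ∣ K j := fun j h => (hf j).not_isUnit (isUnit_of_dvd_one h)
  set cc : J → Bool × Bool → Bool := fun _ _ => false with hcc
  set cls : J → Fin 4 := fun _ => 3 with hcls
  set Ψ : (J → ℕ) → (Fin 3 → Finset ℕ) → ℝ := PsE 0 cc cc with hΨd
  have hΨ1 : ∀ s E, Ψ s E = 1 := fun s E => by
    rw [hΨd]
    unfold PsE
    exact pow_zero _
  set g : ℝ := 2 ^ A with hg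
  have hg1 : 1 ≤ g := one_le_pow₀ (by norm_num)
  set R : ℤ → ℝ := fun t => if ∀ j, vf f t j ≠ 0 then (2 : ℝ) ^ (Q t) else 0 with hRd
  have hR0 : ∀ t, 0 ≤ R t := fun t => by
    rw [hRd]
    dsimp only
    split_ifs
    · exact Real.rpow_nonneg (by norm_num) _
    · exact le_rfl
  have hRB : RBF g cls (kk K K) f Ψ (fun _ _ => ∅) R := by
    obtain ⟨z1, hz1⟩ := hQ
    refine ⟨z1, fun z hz t y X k d hGd hx hX hy hk => ?_⟩
    have h1 : R t = (2 : ℝ) ^ (Q t) := if_pos hGd.1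
    rw [h1, hΨ1, mul_one]
    have h2 := hz1 z hz t y X k d hGd hx hX hy hk
    calc (2 : ℝ) ^ (Q t) ≤ (2 : ℝ) ^ (((A * (z + 2) + A * (d * Fintype.card J) * k +
        A * ∑ j, (S2 z y (vf f t) j).primeFactors.card : ℕ) : ℝ)) :=
          Real.rpow_le_rpow_of_exponent_le (by norm_num) h2
      _ = _ := by
          have e1 : (2 : ℝ) ^ (A * (z + 2)) = g ^ (z + 2) := pow_mul _ _ _
          have e2 : (2 : ℝ) ^ (A * (d * Fintype.card J) * k) = (g ^ (d * Fintype.card J)) ^ k := by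
            rw [hg, ← pow_mul, ← pow_mul, mul_assoc]
          have e3 : (2 : ℝ) ^ (A * ∑ j, (S2 z y (vf f t) j).primeFactors.card) =
              g ^ (∑ j, (S2 z y (vf f t) j).primeFactors.card) := pow_mul _ _ _
          rw [Real.rpow_natCast, pow_add, pow_add, e1, e2, e3]
  have hMaj : ∀ c : ℕ, ∃ z0 : ℕ, ∀ z, z0 ≤ z → ∃ C : ℝ, ∀ y, z < y →
      ∑ s ∈ Tup J z y, RSum cls f (kk K K) Ψ s * ∏ j, gw 1 c (s j) ≤
        C * (Real.log y) ^ (Fintype.card J) := by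
    intro c
    obtain ⟨z0, h0⟩ := avgE hBW hFr hEx hWD hWJ hLA f K K hf hd hK1 hK1 cc cc 0 c
    refine ⟨z0 + c + 2, fun z hz => ?_⟩
    obtain ⟨C, hC⟩ := h0 z (by omega)
    refine ⟨C, fun y hy => ?_⟩
    refine le_trans (le_of_eq ?_) (hC y hy)
    refine sum_congr rfl fun s hs => ?_
    exact hCR J cls f (kk K K) c z y (by omega) (by omega) s hs Ψ
  obtain ⟨C, hC0, hC⟩ := finF hGR hg1 cls (kk K K) f Ψ (fun _ _ => ∅) (fun _ _ _ _ => rfl)
    (fun _ _ => empty_subset _) R hf hd hnd (fun s E => by rw [hΨ1]; norm_num)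
    (fun z y s e E _ _ => by
      rw [hΨ1, hΨ1, hΨ1, mul_one]
      exact ⟨rfl, one_le_pow₀ hg1⟩) hR0 hRB hMaj ε hε
  refine ⟨C, hC0, fun X u v hX hu hv huv => ?_⟩
  refine le_trans (le_of_eq ?_) (hC X u v hX hu hv huv)
  refine sum_congr rfl fun t ht => ?_
  exact (if_pos (mem_filter.1 ht).2).symm

lemma sqrt_ll {X : ℕ} (hX : 3 ≤ X) : 1 / 4 ≤ √(Real.log (Real.log X)) := by
  have h1 : (1.09 : ℝ) ≤ Real.log 3 := by
    have e1 : Real.log 3 = 1 + Real.log (3 / Real.exp 1) := by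
      rw [Real.log_div (by norm_num) (Real.exp_pos _).ne', Real.log_exp]
      ring
    have e2 : 1 - (3 / Real.exp 1)⁻¹ ≤ Real.log (3 / Real.exp 1) :=
      Real.one_sub_inv_le_log_of_pos (by positivity)
    have e3 : (3 / Real.exp 1)⁻¹ = Real.exp 1 / 3 := inv_div _ _
    have e4 : Real.exp 1 < 2.7182818286 := Real.exp_one_lt_d9
    rw [e3] at e2
    linarith
  have h2 : Real.log 3 ≤ Real.log X := Real.log_le_log (by norm_num) (by exact_mod_cast hX)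
  have h3 : (1.09 : ℝ) ≤ Real.log X := h1.trans h2
  have h4 : 1 - (Real.log X)⁻¹ ≤ Real.log (Real.log X) :=
    Real.one_sub_inv_le_log_of_pos (by linarith)
  have h5 : (Real.log X)⁻¹ ≤ (1.09 : ℝ)⁻¹ := inv_anti₀ (by norm_num) h3
  have h6 : (1.09 : ℝ)⁻¹ ≤ 15 / 16 := by norm_num
  rw [show (1 : ℝ) / 4 = √(1 / 16) by
    rw [show (1 : ℝ) / 16 = (1 / 4) ^ 2 by norm_num, Real.sqrt_sq (by norm_num)]]
  exact Real.sqrt_le_sqrt (by linarith)

lemma le_two_rpow' (x : ℝ) : x ≤ 2 * (2 : ℝ) ^ x := by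
  have h1 : (2 : ℝ) ^ x = Real.exp (Real.log 2 * x) := Real.rpow_def_of_pos (by norm_num) x
  have h2 : Real.log 2 * x + 1 ≤ Real.exp (Real.log 2 * x) := Real.add_one_le_exp _
  have h3 : (0.6931471803 : ℝ) < Real.log 2 := Real.log_two_gt_d9
  have h4 : (0 : ℝ) < (2 : ℝ) ^ x := Real.rpow_pos_of_pos (by norm_num) x
  rcases le_or_gt x 0 with hx | hx
  · linarith
  · rw [h1]
    nlinarith

/-- **the mean value of `δ(t)`** -/
theorem lamE (hDL : S_DLC) (hNA : S_NAV) (hGR : S_GRD) (hCR : S_CRD) (hEx : S_EXE) (hWD : S_WHD)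
    (hWJ : S_WHJ) (hLA : S_LA) (hPol : S_POL) (hBW : StBW) (hFr : StFree)
    (a b : ℤ[X]) (hab : b * (a ^ 2 - 4 * b) ≠ 0) :
    ∃ l : ℤ, ∀ ε : ℝ, 0 < ε → ∃ C : ℝ, 0 ≤ C ∧ ∀ (X : ℕ) (u v : ℤ), 3 ≤ X → u.natAbs ≤ X →
      v.natAbs ≤ X → (X : ℝ) ^ ε ≤ (v : ℝ) - u →
      ∑ t ∈ (Icc u v).filter (fun t : ℤ => b.eval t * (a.eval t ^ 2 - 4 * b.eval t) ≠ 0),
        |dl (a.eval t) (b.eval t) - (l : ℝ) / 2 * Real.log (Real.log X)| ≤
          C * ((v : ℝ) - u) * √(Real.log (Real.log X)) := by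
  classical
  set Dp : ℤ[X] := b * (a ^ 2 - 4 * b) with hDp
  set J : Type := {f : ℤ[X] // f ∈ SP Dp} with hJ
  set F : J → ℤ[X] := fun j => j.1 with hF
  have hirr : ∀ j, Irreducible (F j) := fun j =>
    irreducible_of_normalized_factor _ (mem_SP.1 j.2).1
  have hdeg : ∀ j, 0 < (F j).natDegree := fun j => (mem_SP.1 j.2).2
  have hdvd : ∀ j, F j ∣ Dp := fun j => dvd_of_mem_normalizedFactors (mem_SP.1 j.2).1
  have hnd : ∀ j l, j ≠ l → ¬ F j ∣ F l := fun j l hjl =>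
    SP_nd j.2 l.2 (fun h1 => hjl (Subtype.ext h1))
  have hev : ∀ t : ℤ, Dp.eval t = b.eval t * (a.eval t ^ 2 - 4 * b.eval t) := by
    intro t
    rw [hDp]
    simp
  have hne : ∀ t : ℤ, b.eval t * (a.eval t ^ 2 - 4 * b.eval t) ≠ 0 ↔ ∀ j, vf F t j ≠ 0 := by
    intro t
    rw [← hev, eval_ne hab]
    constructor
    · intro h j
      exact h j.1 j.2
    · intro h f hf
      exact h ⟨f, hf⟩
  choose R1 R2 K1 K2 base zj hK1 hK2 hbase hloc using fun j : J => hPol a b (F j) hab (hirr j) (hdeg j)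
  choose m1 hm1 using fun j : J => hNA (F j) (K1 j) (R1 j) (hirr j) (hdeg j) (hK1 j)
  choose m2 hm2 using fun j : J => hNA (F j) (K2 j) (R2 j) (hirr j) (hdeg j) (hK2 j)
  set n1 : J → ℤ → ℝ := fun j t => (((((F j).eval t).natAbs.primeFactors.filter
    (fun p => rl (R1 j) p ((K1 j).eval t) = true)).card : ℕ) : ℝ) with hn1
  set n2 : J → ℤ → ℝ := fun j t => (((((F j).eval t).natAbs.primeFactors.filter
    (fun p => rl (R2 j) p ((K2 j).eval t) = true)).card : ℕ) : ℝ) with hn2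
  set Q : ℤ → ℝ := fun t => if ∀ j, vf F t j ≠ 0 then
    |dl (a.eval t) (b.eval t) - ∑ j, (n1 j t - n2 j t)| else 0 with hQd
  refine ⟨∑ j, (m1 j - m2 j), fun ε hε => ?_⟩
  have hQ : ∃ z1 : ℕ, ∀ z, z1 ≤ z → ∀ (t : ℤ) (y X k D : ℕ), Gd z (vf F t) →
      (∀ j, (vf F t j).natAbs ≤ X ^ D) → 1 ≤ X → 1 ≤ y → X < (y + 1) ^ k →
      Q t ≤ (((4 * (Fintype.card J + 1)) * (z + 2) + (4 * (Fintype.card J + 1)) *
        (D * Fintype.card J) * k +
        (4 * (Fintype.card J + 1)) * ∑ j, (S2 z y (vf F t) j).primeFactors.card : ℕ) : ℝ) := by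
    refine ⟨(∑ f ∈ (normalizedFactors Dp).toFinset, (f.coeff 0).natAbs) + ∑ j, zj j + 2,
      fun z hz t y X k' d hGd hx hX hy hk' => ?_⟩
    have h1 : Q t = |dl (a.eval t) (b.eval t) - ∑ j, (n1 j t - n2 j t)| := if_pos hGd.1
    rw [h1]
    have hcop : ∀ p : ℕ, p.Prime → z < p → (p : ℤ) ∣ b.eval t * (a.eval t ^ 2 - 4 * b.eval t) →
        ∃ j, (p : ℤ) ∣ vf F t j := by
      intro p hp hzp hpd
      rw [← hev] at hpd
      obtain ⟨f, hf, hpf⟩ := exists_SP hab t p hp (fun f hf => by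
        have e1 : (f.coeff 0).natAbs ≤
            ∑ f ∈ (normalizedFactors Dp).toFinset, (f.coeff 0).natAbs :=
          single_le_sum (f := fun f : ℤ[X] => (f.coeff 0).natAbs) (fun _ _ => Nat.zero_le _)
            (Multiset.mem_toFinset.2 hf)
        omega) hpd
      exact ⟨⟨f, hf⟩, hpf⟩
    have hDt : b.eval t * (a.eval t ^ 2 - 4 * b.eval t) ≠ 0 := (hne t).2 hGd.1
    have hL : ∀ j (p : ℕ), p.Prime → p ∣ S1 z y (vf F t) j →
        (OddAt p (a.eval t) (b.eval t) ↔ rl (R1 j) p ((K1 j).eval t) = true) ∧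
        (OddAt p (-2 * a.eval t) (a.eval t ^ 2 - 4 * b.eval t) ↔
          rl (R2 j) p ((K2 j).eval t) = true) := by
      intro j p hp hpj
      haveI : Fact p.Prime := ⟨hp⟩
      have hS1 := (Pool.Agent.W571.RT.S1_dvd_iff hp).1 hpj
      have hzp := (mem_PS.1 hS1.1).1.1
      have e0 : zj j ≤ ∑ j, zj j := le_sum_nat (fun j => zj j) j
      have h3 := hloc j p t (by omega) hS1.2.1 hS1.2.2 (by
        have := hev t
        rw [hDp] at this
        rw [this]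
        exact hDt)
      exact ⟨h3.1.1, h3.2.1⟩
    have h4 := hDL J (a.eval t) (b.eval t) (vf F t) z y X k' d
      (fun j p => rl (R1 j) p ((K1 j).eval t)) (fun j p => rl (R2 j) p ((K2 j).eval t))
      (by omega) hGd (mul_ne_zero_iff.1 hDt).1 (mul_ne_zero_iff.1 hDt).2 (fun j => by
        obtain ⟨q, hq⟩ := hdvd j
        have e := hev t
        rw [hq, eval_mul] at e
        exact ⟨q.eval t, e.symm⟩) hcop hx hX hy hk' hL
    refine h4.trans ?_
    have h5 : 4 * (Fintype.card J + 1) * (z + 2) + 4 * (d * Fintype.card J) * k' +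
        4 * ∑ j, (S2 z y (vf F t) j).primeFactors.card ≤
        (4 * (Fintype.card J + 1)) * (z + 2) + (4 * (Fintype.card J + 1)) *
        (d * Fintype.card J) * k' +
        (4 * (Fintype.card J + 1)) * ∑ j, (S2 z y (vf F t) j).primeFactors.card := by
      have e1 : 4 ≤ 4 * (Fintype.card J + 1) := by omega
      have e2 : 4 * (d * Fintype.card J) * k' ≤
          4 * (Fintype.card J + 1) * (d * Fintype.card J) * k' := by
        rw [mul_assoc 4, mul_assoc (4 * (Fintype.card J + 1))]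
        exact Nat.mul_le_mul_right _ e1
      have e3 := Nat.mul_le_mul_right (∑ j, (S2 z y (vf F t) j).primeFactors.card) e1
      exact Nat.add_le_add (Nat.add_le_add le_rfl e2) e3
    exact_mod_cast h5
  obtain ⟨C0, hC00, hC0⟩ := expF hGR hCR hEx hWD hWJ hLA hBW hFr F hirr hdeg hnd _ Q hQ ε hε
  choose D1 hD1 using fun j : J => hm1 j ε hε
  choose D2 hD2 using fun j : J => hm2 j ε hε
  refine ⟨8 * C0 + ∑ j, (|D1 j| + |D2 j|), by positivity, fun X u v hX hu hv huv => ?_⟩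
  have hXr : (1 : ℝ) ≤ X := by
    have : (3 : ℝ) ≤ X := by exact_mod_cast hX
    linarith
  have h1 : (1 : ℝ) ≤ (v : ℝ) - u := (Real.one_le_rpow hXr hε.le).trans huv
  have hw : (0 : ℝ) ≤ (v : ℝ) - u := by linarith
  have hfil : (Icc u v).filter
      (fun t : ℤ => b.eval t * (a.eval t ^ 2 - 4 * b.eval t) ≠ 0) =
      (Icc u v).filter (fun t : ℤ => ∀ j, vf F t j ≠ 0) := filter_congr fun t _ => hne t
  rw [hfil]
  set L : ℝ := Real.log (Real.log X) with hL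
  have hsq : 1 / 4 ≤ √L := sqrt_ll hX
  set T := (Icc u v).filter (fun t : ℤ => ∀ j, vf F t j ≠ 0) with hT
  have h2 : ∀ t ∈ T, |dl (a.eval t) (b.eval t) - ((∑ j, (m1 j - m2 j) : ℤ) : ℝ) / 2 * L| ≤
      2 * (2 : ℝ) ^ (Q t) + ∑ j, (|n1 j t - (m1 j : ℝ) / 2 * L| + |n2 j t - (m2 j : ℝ) / 2 * L|) := by
    intro t ht
    have e1 : Q t = |dl (a.eval t) (b.eval t) - ∑ j, (n1 j t - n2 j t)| :=
      if_pos (mem_filter.1 ht).2
    have e2 := le_two_rpow' (Q t)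
    have e3 : dl (a.eval t) (b.eval t) - ((∑ j, (m1 j - m2 j) : ℤ) : ℝ) / 2 * L =
        (dl (a.eval t) (b.eval t) - ∑ j, (n1 j t - n2 j t)) +
        ∑ j, ((n1 j t - (m1 j : ℝ) / 2 * L) - (n2 j t - (m2 j : ℝ) / 2 * L)) := by
      push_cast
      rw [sum_div, sum_mul, sub_add, ← sum_sub_distrib]
      congr 1
      refine sum_congr rfl fun j _ => ?_
      ring
    rw [e3]
    refine (abs_add_le _ _).trans (add_le_add (e1 ▸ e2) ?_)
    refine (abs_sum_le_sum_abs _ _).trans (sum_le_sum fun j _ => ?_)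
    exact abs_sub _ _
  refine (sum_le_sum h2).trans ?_
  rw [sum_add_distrib, ← mul_sum, sum_comm]
  have h3 := hC0 X u v (by omega) hu hv huv
  have h4 : ∑ j, ∑ t ∈ T, (|n1 j t - (m1 j : ℝ) / 2 * L| + |n2 j t - (m2 j : ℝ) / 2 * L|) ≤
      ∑ j, (|D1 j| + |D2 j|) * (((v : ℝ) - u) * √L) := by
    refine sum_le_sum fun j _ => ?_
    rw [sum_add_distrib, add_mul]
    have hsub : T ⊆ (Icc u v).filter (fun t : ℤ => (F j).eval t ≠ 0) := by
      intro t ht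
      rw [mem_filter] at ht ⊢
      exact ⟨ht.1, ht.2 j⟩
    have hw2 : 0 ≤ ((v : ℝ) - u) * √L := mul_nonneg hw (Real.sqrt_nonneg _)
    refine add_le_add ?_ ?_
    · refine (sum_le_sum_of_subset_of_nonneg hsub fun _ _ _ => abs_nonneg _).trans ?_
      refine (hD1 j X u v hX hu hv huv).trans ?_
      rw [mul_assoc]
      exact mul_le_mul_of_nonneg_right (le_abs_self _) hw2
    · refine (sum_le_sum_of_subset_of_nonneg hsub fun _ _ _ => abs_nonneg _).trans ?_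
      refine (hD2 j X u v hX hu hv huv).trans ?_
      rw [mul_assoc]
      exact mul_le_mul_of_nonneg_right (le_abs_self _) hw2
  have h5 : 2 * ∑ t ∈ T, (2 : ℝ) ^ (Q t) ≤ 8 * C0 * (((v : ℝ) - u) * √L) := by
    have e1 : 2 * ∑ t ∈ T, (2 : ℝ) ^ (Q t) ≤ 2 * (C0 * ((v : ℝ) - u)) :=
      mul_le_mul_of_nonneg_left h3 (by norm_num)
    have e2 : 0 ≤ C0 * ((v : ℝ) - u) := mul_nonneg hC00 hw
    nlinarith
  rw [← sum_mul] at h4
  have e : (8 * C0 + ∑ j, (|D1 j| + |D2 j|)) * ((v : ℝ) - u) * √L =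
      8 * C0 * (((v : ℝ) - u) * √L) + (∑ j, (|D1 j| + |D2 j|)) * (((v : ℝ) - u) * √L) := by ring
  rw [e]
  exact add_le_add h5 h4

end Pool.Agent.L7h19.EA
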