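import Mathlib
import Pool.Agent.L7h19.EA.Bal
import Pool.Agent.L7h19.FD.Parts
import Pool.Agent.L7h24.EA.Loc
import Pool.Agent.L7h75.EA.N1
import Pool.Agent.L7h75.EA.N2
import Pool.Agent.L7h75.EA.N6
import Pool.Agent.L7h41.EA.P12
import Pool.Agent.L7h41.EA.P3
import Pool.Agent.L7h41.EA.P45
import Pool.Agent.L7h55.EA.P6
import Pool.Agent.L7h55.EA.P78
import Pool.Agent.L7h55.EA.Pr
import Pool.Agent.L7h65.EA.Whj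
import Pool.Agent.L7h65.EA.Gfe
import Pool.Agent.L7h65.EA.Exe
import Pool.Agent.L7h69.EA.Dse
import Pool.Agent.L7h69.EA.Rke
import Pool.Agent.L7h69.EA.Dlb
import Pool.Agent.L7h65.EA.N4
import Pool.Agent.L7h65.EA.N5
import Pool.Agent.L7h42.EA.Zb
import Pool.Agent.L7h69.EA.Tw
import Pool.Agent.L7h65.IK.La

/-!
# Project EA: assembly
-/

set_option autoImplicit false
set_option maxHeartbeats 400000

namespace Pool.Agent.L7h19.EA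

open Finset Polynomial Pool.Agent.W262.RK Pool.Agent.W307.RT Pool.Agent.L7h19.RP
open Pool.Agent.L7h19.IS Pool.Agent.L7h19.IT

/-- the local data of the values -/
theorem pol0 : S_POL :=
  Pool.Agent.L7h55.EA.s_PR Pool.Agent.L7h24.EA.s_SCL
    (Pool.Agent.L7h41.EA.s_P1 (Pool.Agent.L7h75.EA.s_N1 Pool.Agent.L7h24.EA.s_TOR)
      Pool.Agent.L7h75.EA.s_N2)
    (Pool.Agent.L7h41.EA.s_P2 (Pool.Agent.L7h75.EA.s_N1 Pool.Agent.L7h24.EA.s_TOR)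
      Pool.Agent.L7h75.EA.s_N2)
    (Pool.Agent.L7h41.EA.s_P3 Pool.Agent.L7h24.EA.s_N3)
    (Pool.Agent.L7h41.EA.s_P4 Pool.Agent.L7h65.EA.s_N4 Pool.Agent.L7h65.EA.s_N5)
    (Pool.Agent.L7h41.EA.s_P5 Pool.Agent.L7h65.EA.s_N4 Pool.Agent.L7h65.EA.s_N5)
    (Pool.Agent.L7h55.EA.s_P6 Pool.Agent.L7h75.EA.s_N6)
    (Pool.Agent.L7h55.EA.s_P7 Pool.Agent.L7h24.EA.s_N7)
    (Pool.Agent.L7h55.EA.s_P8 Pool.Agent.L7h24.EA.s_N8)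

/-- the descent -/
theorem rke0 : S_RKE := Pool.Agent.L7h69.EA.s_RKE (Pool.Agent.L7h69.EA.s_DSE Pool.Agent.L7h24.EA.s_TOR)

/-- the joint mean values -/
theorem whj0 : S_WHJ := Pool.Agent.L7h65.EA.s_WHJ Pool.Agent.L7h50.UP.s_UP2
  Pool.Agent.L7h50.UP.s_UP02 Pool.Agent.L7h78.FT.s_SQ

/-- all moments, every family -/
theorem momE (a b : ℤ[X]) (hab : b * (a ^ 2 - 4 * b) ≠ 0) (k : ℕ) (ε : ℝ)
    (hε : 0 < ε) :
    ∃ C : ℝ, 0 ≤ C ∧ ∀ (X : ℕ) (u v : ℤ), 1 ≤ X → u.natAbs ≤ X → v.natAbs ≤ X →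
      (X : ℝ) ^ ε ≤ (v : ℝ) - u →
      ∑ t ∈ (Icc u v).filter (fun t : ℤ => b.eval t * (a.eval t ^ 2 - 4 * b.eval t) ≠ 0),
        ((2 : ℝ) ^ ((Module.finrank ℤ (EI (a.eval t) (b.eval t)).toAffine.Point : ℕ) -
          |dl (a.eval t) (b.eval t)| : ℝ)) ^ k ≤ C * ((v : ℝ) - u) :=
  absE rke0 Pool.Agent.L7h65.EA.s_GFE Pool.Agent.L7h50.FD.s_GRD Pool.Agent.L7h46.FD.s_CRD
    Pool.Agent.L7h65.EA.s_EXE Pool.Agent.L7h19.FD.parts.wh whj0 Pool.Agent.L7h65.IK.s_LA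
    pol0 Pool.Agent.L7h19.RP.parts.bw Pool.Agent.L7h23.RP.stFree a b hab k ε hε

/-- all moments, balanced families -/
theorem momB (a b : ℤ[X]) (hab : b * (a ^ 2 - 4 * b) ≠ 0)
    (hbal : ∀ f : ℤ[X], Irreducible f → 0 < f.natDegree → f ∣ b * (a ^ 2 - 4 * b) → BalF a b f)
    (k : ℕ) (ε : ℝ) (hε : 0 < ε) :
    ∃ C : ℝ, 0 ≤ C ∧ ∀ (X : ℕ) (u v : ℤ), 1 ≤ X → u.natAbs ≤ X → v.natAbs ≤ X →
      (X : ℝ) ^ ε ≤ (v : ℝ) - u →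
      ∑ t ∈ (Icc u v).filter (fun t : ℤ => b.eval t * (a.eval t ^ 2 - 4 * b.eval t) ≠ 0),
        ((2 : ℝ) ^ ((Module.finrank ℤ (EI (a.eval t) (b.eval t)).toAffine.Point : ℕ) : ℝ)) ^ k ≤
          C * ((v : ℝ) - u) :=
  absB Pool.Agent.L7h69.EA.s_DLB rke0 Pool.Agent.L7h65.EA.s_GFE Pool.Agent.L7h50.FD.s_GRD
    Pool.Agent.L7h46.FD.s_CRD
    Pool.Agent.L7h65.EA.s_EXE Pool.Agent.L7h19.FD.parts.wh whj0 Pool.Agent.L7h65.IK.s_LA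
    pol0 Pool.Agent.L7h19.RP.parts.bw Pool.Agent.L7h23.RP.stFree a b hab hbal k ε hε

/-- `y² = x³ + b(t) x` -/
theorem zb0 : S_ZB := Pool.Agent.L7h42.EA.s_ZB Pool.Agent.L7h24.EA.s_TOR Pool.Agent.L7h24.EA.s_SCL
  Pool.Agent.L7h24.EA.s_N3

/-- quadratic twists -/
theorem tw0 : S_TW := Pool.Agent.L7h69.EA.s_TW Pool.Agent.L7h24.EA.s_SCL Pool.Agent.L7h24.EA.s_N3
  Pool.Agent.L7h75.EA.s_N6

end Pool.Agent.L7h19.EA
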