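import Mathlib
import Pool.Agent.L7h19.EA.Parts
import Pool.Agent.L7h19.EA.Lam
import Pool.Agent.L7h19.FD.Parts
import Pool.Agent.L7h60.IS.Tk
import Pool.Agent.L7h19.EA.Dlc
import Pool.Agent.L7h63.EA.Nav

/-!
# Project EA: the mean value of `δ(t)`
-/

set_option autoImplicit false
set_option maxHeartbeats 400000

namespace Pool.Agent.L7h19.EA

open Finset Polynomial Pool.Agent.W262.RK Pool.Agent.W307.RT Pool.Agent.L7h19.RP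
open Pool.Agent.L7h19.IS Pool.Agent.L7h19.IT

/-- the mean value of `δ(t)` -/
theorem lam0 (a b : ℤ[X]) (hab : b * (a ^ 2 - 4 * b) ≠ 0) :
    ∃ l : ℤ, ∀ ε : ℝ, 0 < ε → ∃ C : ℝ, 0 ≤ C ∧ ∀ (X : ℕ) (u v : ℤ), 3 ≤ X → u.natAbs ≤ X →
      v.natAbs ≤ X → (X : ℝ) ^ ε ≤ (v : ℝ) - u →
      ∑ t ∈ (Icc u v).filter (fun t : ℤ => b.eval t * (a.eval t ^ 2 - 4 * b.eval t) ≠ 0),
        |dl (a.eval t) (b.eval t) - (l : ℝ) / 2 * Real.log (Real.log X)| ≤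
          C * ((v : ℝ) - u) * √(Real.log (Real.log X)) :=
  lamE s_DLC (Pool.Agent.L7h63.EA.s_NAV Pool.Agent.L7h60.IS.s_TK Pool.Agent.L7h19.FD.tkv0) Pool.Agent.L7h50.FD.s_GRD Pool.Agent.L7h46.FD.s_CRD
    Pool.Agent.L7h65.EA.s_EXE Pool.Agent.L7h19.FD.parts.wh whj0 Pool.Agent.L7h65.IK.s_LA
    pol0 Pool.Agent.L7h19.RP.parts.bw Pool.Agent.L7h23.RP.stFree a b hab

end Pool.Agent.L7h19.EA
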